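import Pool.Agent.Work.MP_e0aece_nt.Bd.B06

/-!
# E12: a set with non-expansion is small
-/

set_option autoImplicit false

namespace Pool.Agent.Work.MP_e0aece_nt.Eps

open Finset Sq

namespace ItemE12

variable {ι : Type} {K : ι → Type}

lemma dif_eq_zero (U : Finset ι) (x y : ∀ i, K i) : dif U x y = 0 ↔ ∀ i ∈ U, x i = y i := by
  classical
  unfold dif
  rw [Finset.card_eq_zero, Finset.filter_eq_empty_iff]
  simp

end ItemE12

open ItemE12 in
theorem claimE12 (hE12b : ClaimE12b) : ClaimE12 := by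
  classical
  intro ι _ _ K _ _ Ω V Z J u β β₁ R₀ kmax hZ hK hu hu2 hβ hβ₁ hNE hkmax hR₀ hinj hJ
  have hV0 : (0 : ℝ) ≤ V.card := Nat.cast_nonneg _
  have hR6 : 6 ≤ R₀ := by
    have : 0 ≤ 30 * u * V.card := by positivity
    linarith
  have hlogR : 0 ≤ Real.log R₀ := Real.log_nonneg (by linarith)
  set A : ℝ := 2 * (12 * Real.log R₀ + 2) with hA
  set K₁ : ℝ := 8 * (β₁ / β) * Real.log ((V.card + 1) * Z) + 6 with hK₁
  have hA1 : 1 ≤ A := by rw [hA]; linarith
  have hZ2 : (2 : ℝ) ≤ Z := by exact_mod_cast hZ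
  have hlogV : 0 ≤ Real.log ((V.card + 1) * Z) := by
    apply Real.log_nonneg
    nlinarith
  have hK0 : 0 ≤ K₁ := by
    have h1 : 0 ≤ β₁ / β := by apply div_nonneg <;> linarith
    rw [hK₁]
    positivity
  have key : ∀ j : ℕ, ∀ W : Finset ι, W ⊆ V → (W.card : ℝ) * (550 * u) ^ j < 1 →
      ∀ Ω₁ : Finset (∀ i, K i), Ω₁ ⊆ Ω → Ω₁.Nonempty → ∃ c : ∀ i, K i,
        Ω₁.card * Real.exp (-(β * (A ^ j * K₁))) ≤
          ((Ω₁.filter fun x => dif W x c = 0).card : ℝ) := by
    intro j
    induction j with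
    | zero =>
      intro W _ hW2 Ω₁ _ _
      have hW0 : W = ∅ := by
        rw [pow_zero, mul_one] at hW2
        have : W.card < 1 := by exact_mod_cast hW2
        exact Finset.card_eq_zero.1 (by omega)
      refine ⟨fun _ => 1, ?_⟩
      have hfil : (Ω₁.filter fun x => dif W x (fun _ => 1) = 0) = Ω₁ := by
        apply Finset.filter_true_of_mem
        intro x _
        rw [dif_eq_zero, hW0]
        simp
      rw [hfil, pow_zero, one_mul]
      have h1 : Real.exp (-(β * K₁)) ≤ 1 := by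
        apply Real.exp_le_one_iff.2
        have : 0 ≤ β * K₁ := mul_nonneg (by linarith) hK0
        linarith
      exact mul_le_of_le_one_right (Nat.cast_nonneg _) h1
    | succ j ih =>
      intro U hU hU2 Ω₁ hΩ₁ hne
      have h := hE12b ι K Ω V Z u β β₁ R₀ kmax (A ^ j * K₁) (550 * u * U.card) hZ hK hu hu2 hβ hβ₁
        hNE hkmax hR₀
        (by
          rw [← hK₁]
          have : 1 ≤ A ^ j := one_le_pow₀ hA1
          exact le_mul_of_one_le_left hK0 this)
        (by
          intro W hW hWD Ω₂ hΩ₂ hne₂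
          apply ih W hW _ Ω₂ hΩ₂ hne₂
          calc (W.card : ℝ) * (550 * u) ^ j ≤ 550 * u * U.card * (550 * u) ^ j :=
              mul_le_mul_of_nonneg_right hWD (by positivity)
            _ = (U.card : ℝ) * (550 * u) ^ (j + 1) := by ring
            _ < 1 := hU2)
        U hU le_rfl Ω₁ hΩ₁ hne
      obtain ⟨c, hc⟩ := h
      refine ⟨c, ?_⟩
      have h3 : A ^ (j + 1) * K₁ = 2 * (12 * Real.log R₀ + 2) * (A ^ j * K₁) := by
        rw [← hA]; ring
      rw [h3]
      exact hc
  rcases Finset.eq_empty_or_nonempty Ω with hE | hne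
  · rw [hE]
    simp only [Finset.card_empty, Nat.cast_zero]
    exact (Real.exp_pos _).le
  obtain ⟨c, hc⟩ := key J V (Finset.Subset.refl _) hJ Ω (Finset.Subset.refl _) hne
  have h1 : (Ω.filter fun x => dif V x c = 0).card ≤ 1 := by
    apply Finset.card_le_one.2
    intro a ha b hb
    rw [Finset.mem_filter, dif_eq_zero] at ha hb
    apply hinj a ha.1 b hb.1
    rw [dif_eq_zero]
    intro i hi
    rw [ha.2 i hi, hb.2 i hi]
  have h2 : (Ω.card : ℝ) * Real.exp (-(β * (A ^ J * K₁))) ≤ 1 :=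
    hc.trans (by exact_mod_cast h1)
  rw [Real.exp_neg, ← div_eq_mul_inv, div_le_one (Real.exp_pos _)] at h2
  exact h2

end Pool.Agent.Work.MP_e0aece_nt.Eps
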