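import Pool.Agent.Work.MP_e0aece_nt.Bd.B06

/-!
# E8: choice of a scale
-/

namespace Pool.Agent.Work.MP_e0aece_nt.Eps

open Finset Sq

namespace ItemE8

lemma log_step (ρ ρ' : ℕ) (h1 : 1 ≤ ρ') (h2 : 12 * ρ' ≤ 11 * ρ) :
    12 * Real.log ρ' + 1 ≤ 12 * Real.log ρ := by
  have hρ' : (0 : ℝ) < ρ' := by exact_mod_cast h1
  have hρ : (0 : ℝ) < ρ := by
    have : 0 < ρ := by omega
    exact_mod_cast this
  have h3 : (12 : ℝ) * ρ' ≤ 11 * ρ := by exact_mod_cast h2
  have h4 : Real.log ρ' ≤ Real.log (11 / 12 * ρ) := Real.log_le_log hρ' (by linarith)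
  have h5 : Real.log (11 / 12 * (ρ : ℝ)) = Real.log (11 / 12) + Real.log ρ :=
    Real.log_mul (by norm_num) hρ.ne'
  have h6 : Real.log (11 / 12 : ℝ) ≤ 11 / 12 - 1 := Real.log_le_sub_one_of_pos (by norm_num)
  rw [h5] at h4
  linarith

end ItemE8

/-- E8: choice of a scale. -/
theorem claimE8 : ClaimE8 := by
  intro f L n hL hf0 hn hbig
  by_contra hcon
  push Not at hcon
  have key : ∀ ρ : ℕ, 1 ≤ ρ → ρ ≤ n → f ρ ≤ Real.exp (L * (12 * Real.log ρ + 1)) * f 0 := by
    intro ρ
    induction ρ using Nat.strong_induction_on with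
    | _ ρ ih =>
      intro h1 h2
      have h3 := hcon ρ h1 h2
      rcases Nat.lt_or_ge ρ 2 with h4 | h4
      · have h5 : ρ = 1 := by omega
        subst h5
        have h6 : 11 * 1 / 12 = 0 := by norm_num
        rw [h6] at h3
        simpa using h3.le
      · set ρ' := 11 * ρ / 12 with hρ'
        have h5 : 1 ≤ ρ' := by omega
        have h6 : ρ' < ρ := by omega
        have h7 := ih ρ' h6 h5 (by omega)
        have h8 := ItemE8.log_step ρ ρ' h5 (by omega)
        have h9 : Real.exp L * (Real.exp (L * (12 * Real.log ρ' + 1)) * f 0) ≤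
            Real.exp (L * (12 * Real.log ρ + 1)) * f 0 := by
          rw [← mul_assoc, ← Real.exp_add]
          apply mul_le_mul_of_nonneg_right _ hf0.le
          apply Real.exp_le_exp.2
          nlinarith
        calc f ρ ≤ Real.exp L * f ρ' := h3.le
          _ ≤ Real.exp L * (Real.exp (L * (12 * Real.log ρ' + 1)) * f 0) :=
            mul_le_mul_of_nonneg_left h7 (Real.exp_pos _).le
          _ ≤ _ := h9
  exact absurd (key n hn le_rfl) (not_le.2 hbig)

end Pool.Agent.Work.MP_e0aece_nt.Eps
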