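import Pool.Agent.Work.MP_e0aece_nt.Bd.B06

namespace Pool.Agent.Work.MP_e0aece_nt.Eps

open Finset Sq

namespace ItemF3

variable {G Ω : Type} [AddCommGroup G] [Fintype G] [DecidableEq G] [Fintype Ω]

theorem rr_nonneg (gg : Ω → G) (w : Ω → ℝ) (hw : ∀ a, 0 ≤ w a) (t : ℕ) (x : G) :
    0 ≤ rr gg w t x := by
  unfold rr
  refine Finset.sum_nonneg fun p _ => ?_
  split_ifs
  · exact Finset.prod_nonneg fun k _ => hw _
  · exact le_rfl

/-- the number of subsets of a set with `T` elements which omit at most `l` elements -/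
theorem card_big (s l : ℕ) :
    ((univ : Finset (Finset (Fin (s + l + 2)))).filter fun S => s + 2 ≤ S.card).card ≤
      (s + l + 3) ^ l := by
  classical
  have h1 : Fintype.card (Fin l → Option (Fin (s + l + 2))) = (s + l + 3) ^ l := by
    rw [Fintype.card_fun, Fintype.card_option, Fintype.card_fin, Fintype.card_fin]
  rw [← h1, ← Finset.card_univ]
  refine Finset.card_le_card_of_surjOn
    (fun q => (univ.filter fun i => ∃ j, q j = some i)ᶜ) ?_
  intro S hS
  have hS' : s + 2 ≤ S.card := (Finset.mem_filter.1 (Finset.mem_coe.1 hS)).2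
  have hc : Sᶜ.card ≤ l := by
    rw [Finset.card_compl, Fintype.card_fin]
    omega
  refine ⟨fun j => if h : j.1 < Sᶜ.card then some ((Sᶜ).orderEmbOfFin rfl ⟨j.1, h⟩) else none,
    Finset.mem_coe.2 (Finset.mem_univ _), ?_⟩
  rw [compl_eq_comm]
  ext i
  constructor
  · intro hi
    refine Finset.mem_filter.2 ⟨Finset.mem_univ _, ?_⟩
    have h2 : i ∈ Set.range ((Sᶜ).orderEmbOfFin rfl) := by
      rw [Finset.range_orderEmbOfFin]
      exact Finset.mem_coe.2 hi
    obtain ⟨⟨j, hj⟩, hji⟩ := h2
    refine ⟨⟨j, by omega⟩, ?_⟩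
    simp only [hj, dite_true]
    rw [hji]
  · intro hi
    obtain ⟨j, hj⟩ := (Finset.mem_filter.1 hi).2
    by_cases h : j.1 < Sᶜ.card
    · simp only [h, dite_true, Option.some.injEq] at hj
      rw [← hj]
      exact Finset.orderEmbOfFin_mem _ _ _
    · simp only [h, dite_false] at hj
      exact absurd hj (by simp)

end ItemF3

open Classical in
open ItemF3 in
theorem claimF3 (hF3a : ClaimF3a) (hF3b : ClaimF3b) : ClaimF3 := by
  intro G Ω _ _ _ _ gg w lam s l Θ hw hN hΘ heq hl
  set N := ∑ a, w a with hNdef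
  set T := s + l + 2 with hT
  have hG : (0 : ℝ) < Fintype.card G := by
    have : 0 < Fintype.card G := Fintype.card_pos
    exact_mod_cast this
  have hNT : 0 < N ^ T := pow_pos hN T
  let wt : (Fin T → Ω) → ℝ := fun p => ∏ k, w (p k)
  have hwt : ∀ p, 0 ≤ wt p := fun p => Finset.prod_nonneg fun k _ => hw _
  have htot : ∑ p, wt p = N ^ T := by
    rw [hNdef, Fintype.sum_pow]
  let rich : (Fin T → Ω) → Prop := fun p =>
    N ^ T ≤ 2 * (Fintype.card G : ℝ) * rr gg w T (∑ k, gg (p k))
  have hpoor : ∑ p ∈ univ.filter (fun p => ¬ rich p), wt p ≤ N ^ T / 2 := by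
    have h1 : ∑ p ∈ univ.filter (fun p => ¬ rich p), wt p =
        ∑ x : G, ∑ p ∈ univ.filter (fun p => ¬ rich p),
          if ∑ k, gg (p k) = x then wt p else 0 := by
      rw [Finset.sum_comm]
      refine Finset.sum_congr rfl fun p _ => ?_
      rw [Finset.sum_ite_eq]
      simp
    rw [h1]
    have h2 : ∀ x : G, (∑ p ∈ univ.filter (fun p => ¬ rich p),
        if ∑ k, gg (p k) = x then wt p else 0) ≤ N ^ T / (2 * Fintype.card G) := by
      intro x
      by_cases hx : N ^ T ≤ 2 * (Fintype.card G : ℝ) * rr gg w T x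
      · refine le_trans (Finset.sum_nonpos fun p hp => ?_) (by positivity)
        have hp' := (Finset.mem_filter.1 hp).2
        split_ifs with h
        · exfalso
          apply hp'
          change N ^ T ≤ 2 * (Fintype.card G : ℝ) * rr gg w T (∑ k, gg (p k))
          rw [h]
          exact hx
        · exact le_rfl
      · push Not at hx
        have h3 : (∑ p ∈ univ.filter (fun p => ¬ rich p),
            if ∑ k, gg (p k) = x then wt p else 0) ≤ rr gg w T x := by
          unfold rr
          refine Finset.sum_le_sum_of_subset_of_nonneg (Finset.filter_subset _ _) fun p _ _ => ?_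
          split_ifs
          · exact hwt p
          · exact le_rfl
        refine h3.trans ?_
        rw [le_div_iff₀ (by positivity)]
        nlinarith
    refine (Finset.sum_le_card_nsmul univ _ _ fun x _ => h2 x).trans ?_
    rw [nsmul_eq_mul, Finset.card_univ]
    rw [mul_div_assoc']
    rw [div_le_div_iff₀ (by positivity) (by positivity)]
    nlinarith
  have hrich : N ^ T / 2 ≤ ∑ p ∈ univ.filter rich, wt p := by
    have h1 : ∑ p ∈ univ.filter rich, wt p + ∑ p ∈ univ.filter (fun p => ¬ rich p), wt p =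
        ∑ p, wt p := Finset.sum_filter_add_sum_filter_not _ _ _
    rw [htot] at h1
    linarith
  set big := (univ : Finset (Finset (Fin T))).filter fun S => s + 2 ≤ S.card with hbig
  have hcover : ∑ p ∈ univ.filter rich, wt p ≤
      ∑ S ∈ big, ∑ p ∈ univ.filter (fun p : Fin T → Ω => GoodS gg w Θ p S), wt p := by
    have h1 : ∑ S ∈ big, ∑ p ∈ univ.filter (fun p : Fin T → Ω => GoodS gg w Θ p S), wt p =
        ∑ p, ∑ S ∈ big, if GoodS gg w Θ p S then wt p else 0 := by
      simp_rw [Finset.sum_filter]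
      rw [Finset.sum_comm]
    rw [h1]
    refine le_trans (Finset.sum_le_sum fun p hp => ?_)
      (Finset.sum_le_sum_of_subset_of_nonneg (Finset.filter_subset rich _)
        fun p _ _ => Finset.sum_nonneg fun S _ => by
          split_ifs
          · exact hwt p
          · exact le_rfl)
    have hp' := (Finset.mem_filter.1 hp).2
    obtain ⟨S, hS, hgS⟩ := hF3a G Ω gg w lam s l Θ hw hN hΘ heq hl p hp'
    have h2 : wt p = if GoodS gg w Θ p S then wt p else 0 := by
      rw [if_pos hgS]
    have hSb : S ∈ big := Finset.mem_filter.2 ⟨Finset.mem_univ _, hS⟩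
    refine h2.le.trans ?_
    refine Finset.single_le_sum (f := fun S => if GoodS gg w Θ p S then wt p else 0)
      (fun S _ => ?_) hSb
    split_ifs
    · exact hwt p
    · exact le_rfl
  have hsum : N ^ T / 2 ≤ ∑ S ∈ big, N ^ (T - S.card) *
      ∑ p ∈ univ.filter (fun p : Fin S.card → Ω => Good gg w Θ S.card p), ∏ k, w (p k) := by
    refine (hrich.trans hcover).trans (le_of_eq ?_)
    refine Finset.sum_congr rfl fun S _ => ?_
    exact hF3b G Ω gg w Θ T S
  have hne : big.Nonempty := by
    refine ⟨univ, Finset.mem_filter.2 ⟨Finset.mem_univ _, ?_⟩⟩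
    rw [Finset.card_univ, Fintype.card_fin]
    omega
  have hcard : (big.card : ℝ) ≤ ((s : ℝ) + l + 3) ^ l := by
    have := card_big s l
    calc (big.card : ℝ) ≤ (((s + l + 3) ^ l : ℕ) : ℝ) := by exact_mod_cast this
      _ = ((s : ℝ) + l + 3) ^ l := by push_cast; rfl
  have hcpos : (0 : ℝ) < ((s : ℝ) + l + 3) ^ l := by positivity
  have hex : ∃ S ∈ big, N ^ T / (2 * ((s : ℝ) + l + 3) ^ l) ≤ N ^ (T - S.card) *
      ∑ p ∈ univ.filter (fun p : Fin S.card → Ω => Good gg w Θ S.card p), ∏ k, w (p k) := by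
    by_contra hcon
    push Not at hcon
    have h1 := Finset.sum_lt_sum_of_nonempty hne hcon
    rw [Finset.sum_const, nsmul_eq_mul] at h1
    have h2 : (big.card : ℝ) * (N ^ T / (2 * ((s : ℝ) + l + 3) ^ l)) ≤ N ^ T / 2 := by
      rw [mul_div_assoc', div_le_div_iff₀ (by positivity) (by positivity)]
      nlinarith [mul_le_mul_of_nonneg_right hcard hNT.le]
    linarith
  obtain ⟨S, hS, hSle⟩ := hex
  have hS1 := (Finset.mem_filter.1 hS).2
  have hS2 : S.card ≤ T := by
    have := Finset.card_le_univ S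
    rwa [Fintype.card_fin] at this
  refine ⟨S.card, hS1, by omega, ?_⟩
  rw [div_le_iff₀ (by positivity)] at hSle
  have hpow : N ^ T = N ^ (T - S.card) * N ^ S.card := by
    rw [← pow_add]
    congr 1
    omega
  rw [hpow] at hSle
  have hpos : 0 < N ^ (T - S.card) := pow_pos hN _
  have h3 : N ^ (T - S.card) * N ^ S.card ≤ N ^ (T - S.card) * (2 * ((s : ℝ) + l + 3) ^ l *
      ∑ p ∈ univ.filter (fun p : Fin S.card → Ω => Good gg w Θ S.card p), ∏ k, w (p k)) := by
    refine hSle.trans (le_of_eq ?_)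
    ring
  exact le_of_mul_le_mul_left h3 hpos

end Pool.Agent.Work.MP_e0aece_nt.Eps
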