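import Mathlib
import Pool.Agent.Work.MP_e0aece_nt.Bd.B06

/-!
The choice of a good subset of the indices.
-/

namespace Pool.Agent.Work.MP_e0aece_nt.Eps

open Finset Sq

namespace ItemF3a

variable {G Ω : Type} [AddCommGroup G] [DecidableEq G] [Fintype Ω]

lemma rr_nonneg (gg : Ω → G) (w : Ω → ℝ) (hw : ∀ a, 0 ≤ w a) (t : ℕ) (x : G) :
    0 ≤ rr gg w t x := by
  unfold rr
  apply Finset.sum_nonneg
  intro p _
  split_ifs
  · exact Finset.prod_nonneg fun k _ => hw _
  · exact le_rfl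

/-- the normalised weight of the tuples with the same sum on `S` -/
noncomputable def nw (gg : Ω → G) (w : Ω → ℝ) (Θ : ℝ) {T : ℕ} (p : Fin T → Ω)
    (S : Finset (Fin T)) : ℝ :=
  Θ ^ S.card * rr gg w S.card (∑ k ∈ S, gg (p k)) / (∑ a, w a) ^ S.card

end ItemF3a

theorem claimF3a : ClaimF3a := by
  intro G Ω _ _ _ _ gg w lam s l Θ hw hN hΘ hE hΘl p hp
  classical
  set N : ℝ := ∑ a, w a with hNdef
  have hΘ0 : 0 < Θ := by linarith
  have hG : (0 : ℝ) < (Fintype.card G : ℝ) := by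
    exact_mod_cast Fintype.card_pos
  set n0 : ℝ := ((univ.filter fun y : G => lam • y = 0).card : ℝ) with hn0
  obtain ⟨S, hS, hmax⟩ := Finset.exists_max_image
    (univ.filter fun S : Finset (Fin (s + l + 2)) => s ≤ S.card)
    (ItemF3a.nw gg w Θ p) ⟨univ, by
      rw [Finset.mem_filter]
      refine ⟨Finset.mem_univ _, ?_⟩
      rw [Finset.card_univ, Fintype.card_fin]
      omega⟩
  have hSs : s ≤ S.card := (Finset.mem_filter.1 hS).2
  -- upper bound for the normalised weight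
  have hub : (Fintype.card G : ℝ) * rr gg w S.card (∑ k ∈ S, gg (p k)) ≤
      3 / 2 * N ^ S.card * n0 := by
    refine le_trans ?_ (hE S.card hSs (∑ k ∈ S, gg (p k)))
    apply mul_le_mul_of_nonneg_left _ hG.le
    apply Finset.single_le_sum (f := fun y => rr gg w S.card y)
      (fun y _ => ItemF3a.rr_nonneg gg w hw _ _)
    rw [Finset.mem_filter]
    exact ⟨Finset.mem_univ _, rfl⟩
  have huniv := hmax univ (by
    rw [Finset.mem_filter]
    refine ⟨Finset.mem_univ _, ?_⟩
    rw [Finset.card_univ, Fintype.card_fin]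
    omega)
  have hcard : (univ : Finset (Fin (s + l + 2))).card = s + l + 2 := by
    rw [Finset.card_univ, Fintype.card_fin]
  -- comparison with the full set
  have h1 : Θ ^ (s + l + 2) ≤ 3 * n0 * Θ ^ S.card := by
    unfold ItemF3a.nw at huniv
    rw [hcard] at huniv
    have hT : 0 < N ^ (s + l + 2) := pow_pos hN _
    have hSp : 0 < N ^ S.card := pow_pos hN _
    rw [div_le_div_iff₀ hT hSp] at huniv
    have h2 : Θ ^ (s + l + 2) * N ^ (s + l + 2) * N ^ S.card ≤
        3 * n0 * Θ ^ S.card * N ^ S.card * N ^ (s + l + 2) := by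
      calc Θ ^ (s + l + 2) * N ^ (s + l + 2) * N ^ S.card
          ≤ Θ ^ (s + l + 2) * (2 * (Fintype.card G : ℝ) *
              rr gg w (s + l + 2) (∑ k, gg (p k))) * N ^ S.card := by
            apply mul_le_mul_of_nonneg_right _ hSp.le
            exact mul_le_mul_of_nonneg_left hp (pow_pos hΘ0 _).le
        _ = 2 * (Fintype.card G : ℝ) * (Θ ^ (s + l + 2) *
              rr gg w (s + l + 2) (∑ k, gg (p k)) * N ^ S.card) := by ring
        _ ≤ 2 * (Fintype.card G : ℝ) * (Θ ^ S.card *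
              rr gg w S.card (∑ k ∈ S, gg (p k)) * N ^ (s + l + 2)) := by
            exact mul_le_mul_of_nonneg_left huniv (by positivity)
        _ = 2 * Θ ^ S.card * N ^ (s + l + 2) *
              ((Fintype.card G : ℝ) * rr gg w S.card (∑ k ∈ S, gg (p k))) := by ring
        _ ≤ 2 * Θ ^ S.card * N ^ (s + l + 2) * (3 / 2 * N ^ S.card * n0) := by
            exact mul_le_mul_of_nonneg_left hub (by positivity)
        _ = 3 * n0 * Θ ^ S.card * N ^ S.card * N ^ (s + l + 2) := by ring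
    have h3 : Θ ^ (s + l + 2) * (N ^ (s + l + 2) * N ^ S.card) ≤
        3 * n0 * Θ ^ S.card * (N ^ (s + l + 2) * N ^ S.card) := by
      calc _ = Θ ^ (s + l + 2) * N ^ (s + l + 2) * N ^ S.card := by ring
        _ ≤ _ := h2
        _ = _ := by ring
    exact le_of_mul_le_mul_right h3 (mul_pos hT hSp)
  have h4 : Θ ^ (s + l + 2) < Θ ^ (l + 1 + S.card) := by
    rw [pow_add Θ (l + 1) S.card]
    exact h1.trans_lt (mul_lt_mul_of_pos_right hΘl (pow_pos hΘ0 _))
  have h5 : s + l + 2 < l + 1 + S.card := (pow_lt_pow_iff_right₀ hΘ).1 h4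
  refine ⟨S, by omega, ?_⟩
  intro S' hS' hc
  have hc' : S'.card ≤ S.card := Finset.card_le_card hS'
  have hmem : S' ∈ univ.filter fun S : Finset (Fin (s + l + 2)) => s ≤ S.card := by
    rw [Finset.mem_filter]
    exact ⟨Finset.mem_univ _, by omega⟩
  have h6 := hmax S' hmem
  unfold ItemF3a.nw at h6
  rw [div_le_div_iff₀ (pow_pos hN _) (pow_pos hN _)] at h6
  obtain ⟨d, hd⟩ := Nat.exists_eq_add_of_le hc'
  rw [hd, Nat.add_sub_cancel_left]
  rw [hd] at h6
  have hpos : 0 < Θ ^ S'.card * N ^ S'.card := mul_pos (pow_pos hΘ0 _) (pow_pos hN _)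
  apply le_of_mul_le_mul_right _ hpos
  calc rr gg w S'.card (∑ k ∈ S', gg (p k)) * N ^ d * (Θ ^ S'.card * N ^ S'.card)
      = Θ ^ S'.card * rr gg w S'.card (∑ k ∈ S', gg (p k)) * N ^ (S'.card + d) := by
        rw [pow_add]; ring
    _ ≤ Θ ^ (S'.card + d) * rr gg w (S'.card + d) (∑ k ∈ S, gg (p k)) * N ^ S'.card := h6
    _ = Θ ^ d * rr gg w (S'.card + d) (∑ k ∈ S, gg (p k)) * (Θ ^ S'.card * N ^ S'.card) := by
        rw [pow_add]; ring

end Pool.Agent.Work.MP_e0aece_nt.Eps
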