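import Pool.Agent.Work.MP_e0aece_nt.Bd.B06

/-!
# Item F3b: the weight of the tuples that are good on `S`
-/

namespace Pool.Agent.Work.MP_e0aece_nt.Eps

open Finset Sq

namespace ItemF3b

/-- The enumeration of `S`, as an embedding. -/
noncomputable def emb {t : ℕ} (S : Finset (Fin t)) : Fin S.card ↪ Fin t :=
  ⟨fun k => ((S.equivFin.symm k : {x // x ∈ S}) : Fin t), fun _ _ h =>
    S.equivFin.symm.injective (Subtype.ext h)⟩

theorem emb_mem {t : ℕ} (S : Finset (Fin t)) (k : Fin S.card) : emb S k ∈ S :=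
  (S.equivFin.symm k).2

theorem exists_emb {t : ℕ} (S : Finset (Fin t)) {x : Fin t} (hx : x ∈ S) :
    ∃ k, emb S k = x := by
  refine ⟨S.equivFin ⟨x, hx⟩, ?_⟩
  simp [emb]

theorem map_univ {t : ℕ} (S : Finset (Fin t)) : (univ : Finset (Fin S.card)).map (emb S) = S := by
  ext x
  simp only [mem_map, mem_univ, true_and]
  constructor
  · rintro ⟨k, rfl⟩
    exact emb_mem S k
  · intro hx
    exact exists_emb S hx

theorem good_iff {G Ω : Type} [AddCommGroup G] [DecidableEq G] [Fintype Ω] (gg : Ω → G)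
    (w : Ω → ℝ) (Θ : ℝ) (t : ℕ) (S : Finset (Fin t)) (p : Fin t → Ω) :
    GoodS gg w Θ p S ↔ Good gg w Θ S.card (fun k => p (emb S k)) := by
  have hsum : ∀ T : Finset (Fin S.card),
      ∑ k ∈ T.map (emb S), gg (p k) = ∑ k ∈ T, gg (p (emb S k)) := fun T => by
    rw [sum_map]
  have hS : ∑ k ∈ S, gg (p k) = ∑ k : Fin S.card, gg (p (emb S k)) := by
    rw [← hsum, map_univ]
  constructor
  · intro h T hT
    have h1 := h (T.map (emb S)) (fun x hx => by
      obtain ⟨k, _, rfl⟩ := mem_map.1 hx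
      exact emb_mem S k) (by rwa [card_map])
    rw [card_map, hsum, hS] at h1
    exact h1
  · intro h S' hS' hc
    have hmap : (univ.filter fun k => emb S k ∈ S').map (emb S) = S' := by
      ext x
      simp only [mem_map, mem_filter, mem_univ, true_and]
      constructor
      · rintro ⟨k, hk, rfl⟩
        exact hk
      · intro hx
        obtain ⟨k, rfl⟩ := exists_emb S (hS' hx)
        exact ⟨k, hx, rfl⟩
    have hcard : (univ.filter fun k => emb S k ∈ S').card = S'.card := by
      rw [← card_map (emb S), hmap]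
    have h1 := h (univ.filter fun k => emb S k ∈ S') (by rwa [hcard])
    rw [hcard, ← hsum, hmap, ← hS] at h1
    exact h1

open Classical in
theorem split_sum {Ω : Type} [Fintype Ω] (w : Ω → ℝ) (t : ℕ) (S : Finset (Fin t))
    (P : (Fin S.card → Ω) → Prop) :
    ∑ p : Fin t → Ω, (if P (fun k => p (emb S k)) then ∏ k, w (p k) else 0) =
      (∑ a, w a) ^ (t - S.card) *
        ∑ q : Fin S.card → Ω, if P q then ∏ k, w (q k) else 0 := by
  have h1 : ∑ p : Fin t → Ω, (if P (fun k => p (emb S k)) then ∏ k, w (p k) else 0) =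
      ∑ q : ({x // x ∈ S} → Ω) × ({x // ¬ x ∈ S} → Ω),
        (if P (fun k => q.1 (S.equivFin.symm k)) then ∏ k, w (q.1 k) else 0) *
          ∏ k, w (q.2 k) := by
    refine Fintype.sum_equiv (Equiv.piEquivPiSubtypeProd (fun i => i ∈ S) (fun _ => Ω)) _ _ ?_
    intro p
    have h2 : (∏ k : {x // x ∈ S}, w (p k)) * ∏ k : {x // ¬ x ∈ S}, w (p k) = ∏ k, w (p k) := by
      rw [← Fintype.prod_subtype_mul_prod_subtype (fun i => i ∈ S) (fun k => w (p k))]
      congr 1
      · congr 1
        ext x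
        simp
    simp only [Equiv.piEquivPiSubtypeProd_apply]
    rw [ite_mul, zero_mul, ← h2]
    rfl
  rw [h1, Fintype.sum_prod_type]
  simp_rw [← mul_sum]
  rw [← sum_mul, mul_comm]
  congr 1
  · have h3 : ∏ _k : {x // ¬ x ∈ S}, ∑ a, w a =
        ∑ q : {x // ¬ x ∈ S} → Ω, ∏ k, w (q k) := by
      rw [Finset.prod_univ_sum, Fintype.piFinset_univ]
    rw [← h3, prod_const, card_univ, Fintype.card_subtype_compl, Fintype.card_fin,
      Fintype.card_coe]
  · refine Fintype.sum_equiv (S.equivFin.arrowCongr (Equiv.refl Ω)) _ _ ?_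
    intro q
    have h4 : ∏ k, w (q k) = ∏ k, w (q (S.equivFin.symm k)) :=
      (Fintype.prod_equiv S.equivFin.symm _ _ fun k => rfl).symm
    have h5 : (S.equivFin.arrowCongr (Equiv.refl Ω)) q = fun k => q (S.equivFin.symm k) := rfl
    rw [h5, h4]

end ItemF3b

open ItemF3b in
theorem claimF3b : ClaimF3b := by
  classical
  intro G Ω _ _ _ _ gg w Θ t S
  have h := split_sum w t S (fun p => Good gg w Θ S.card p)
  rw [sum_filter, sum_filter]
  refine Eq.trans ?_ h
  refine sum_congr rfl fun p _ => ?_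
  simp only [good_iff gg w Θ t S p]

end Pool.Agent.Work.MP_e0aece_nt.Eps
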