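import Pool.Agent.Work.MP_e0aece_nt.Bd.B06

/-!
# Item F5: short zero sums, from equidistribution modulo the torsion
-/

namespace Pool.Agent.Work.MP_e0aece_nt.Eps

open Finset Sq

namespace ItemF5

/-- the number of summands -/
theorem l_bound (l' P X G : ℕ) (hP : 1 ≤ P) (hX : 0 < X)
    (hXG : 1 / (2 * (P : ℝ)) * G ≤ 3 * X) (h2 : l' * X ^ 3 ≤ 2 * G ^ 3) :
    l' ≤ 432 * P ^ 3 := by
  have hP0 : (0 : ℝ) < P := by exact_mod_cast hP
  have h3 : G ≤ 6 * P * X := by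
    have : (G : ℝ) ≤ 6 * P * X := by
      have e : (G : ℝ) = 2 * P * (1 / (2 * (P : ℝ)) * G) := by field_simp
      rw [e]
      calc 2 * (P : ℝ) * (1 / (2 * (P : ℝ)) * G) ≤ 2 * P * (3 * X) :=
            mul_le_mul_of_nonneg_left hXG (by positivity)
        _ = 6 * P * X := by ring
    exact_mod_cast this
  have h4 : l' * X ^ 3 ≤ 432 * P ^ 3 * X ^ 3 := by
    calc l' * X ^ 3 ≤ 2 * G ^ 3 := h2
      _ ≤ 2 * (6 * P * X) ^ 3 := Nat.mul_le_mul_left _ (Nat.pow_le_pow_left h3 3)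
      _ = 432 * P ^ 3 * X ^ 3 := by ring
  exact Nat.le_of_mul_le_mul_right h4 (pow_pos hX 3)

/-- the size condition -/
theorem size_bound (P t nt smax : ℝ) (Θ W : ℝ) (hP : 1 ≤ P) (ht : 1 ≤ t) (hΘ : 1 < Θ)
    (hnt0 : 0 ≤ nt) (hPt : 432 * (P * t) ≤ smax) (hnt : nt ≤ smax)
    (hW : 8 * smax ^ 2 * Θ ^ 2 ≤ W) :
    t ^ 2 * Θ ^ 2 + t * nt * Θ < 1 / (2 * P) / 2 * W := by
  have hP0 : 0 < P := by linarith
  have h0 : P * t ≥ 1 := one_le_mul_of_one_le_of_one_le hP ht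
  have hs : 432 ≤ smax := by linarith
  have hts : t ≤ smax := by
    have : t * 1 ≤ t * P := mul_le_mul_of_nonneg_left hP (by linarith)
    linarith [mul_comm t P]
  have h1 : P * t ^ 2 * Θ ^ 2 ≤ smax / 432 * smax * Θ ^ 2 := by
    refine mul_le_mul_of_nonneg_right ?_ (by positivity)
    have : P * t ^ 2 = (P * t) * t := by ring
    rw [this]
    exact mul_le_mul (by linarith) hts (by linarith) (by linarith)
  have h2 : P * (t * nt * Θ) ≤ smax / 432 * smax * Θ ^ 2 := by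
    have e : P * (t * nt * Θ) = (P * t) * nt * Θ := by ring
    rw [e]
    refine mul_le_mul ?_ ?_ (by linarith) (by positivity)
    · exact mul_le_mul (by linarith) hnt hnt0 (by linarith)
    · nlinarith
  have h3 : 0 < smax ^ 2 * Θ ^ 2 := by positivity
  have h4 : 4 * (P * t ^ 2 * Θ ^ 2 + P * (t * nt * Θ)) < W := by
    have e : smax / 432 * smax * Θ ^ 2 = smax ^ 2 * Θ ^ 2 / 432 := by ring
    rw [e] at h1 h2
    linarith
  have h5 : t ^ 2 * Θ ^ 2 + t * nt * Θ =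
      1 / (2 * P) / 2 * (4 * (P * t ^ 2 * Θ ^ 2 + P * (t * nt * Θ))) := by
    field_simp
    ring
  rw [h5]
  exact mul_lt_mul_of_pos_left h4 (by positivity)

end ItemF5

theorem claimF5 (hF2 : ClaimF2) (hF3 : ClaimF3) (hF5a : ClaimF5a) (hF5b : ClaimF5b) :
    ClaimF5 := by
  classical
  intro G Ω _ _ _ _ gg w lam s l smax Θ W hlam hw hN hΘ hW heq htor hsmax hbig
  obtain ⟨t, ht1, ht2, hgood⟩ := hF3 G Ω gg w lam s l Θ hw hN hΘ heq htor
  obtain ⟨P, hP⟩ : ∃ P : ℕ, P = (s + l + 3) ^ l := ⟨_, rfl⟩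
  have hP1 : 1 ≤ P := by rw [hP]; exact Nat.one_le_pow _ _ (by omega)
  have hPr : (1 : ℝ) ≤ P := by exact_mod_cast hP1
  have hP3 : (s + l + 3) ^ (3 * l) = P ^ 3 := by rw [hP, ← pow_mul, mul_comm]
  have hPc : ((s : ℝ) + l + 3) ^ l = (P : ℝ) := by rw [hP]; push_cast; ring
  rw [hPc] at hgood
  have hα : (0 : ℝ) < 1 / (2 * (P : ℝ)) := by positivity
  have hα2 : 1 / (2 * (P : ℝ)) * (∑ a, w a) ^ t ≤
      ∑ p ∈ univ.filter (fun p : Fin t → Ω => Good gg w Θ t p), ∏ k, w (p k) := by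
    rw [one_div, inv_mul_le_iff₀ (by positivity)]
    exact hgood
  have h5a := hF5a G Ω gg w lam t Θ (1 / (2 * (P : ℝ))) hw hN hα (heq t (by omega)) hα2
  obtain ⟨X, hX⟩ : ∃ X : Finset G, X = univ.filter fun y : G => ∃ x : G, lam • y = lam • x ∧
      0 < rr gg w t x ∧ 1 / (2 * (P : ℝ)) / 2 * rr gg w t x ≤ ∑ p ∈ univ.filter
        (fun p : Fin t → Ω => Good gg w Θ t p ∧ ∑ k, gg (p k) = x), ∏ k, w (p k) := ⟨_, rfl⟩
  rw [← hX] at h5a
  have hG : (0 : ℝ) < (Fintype.card G : ℝ) := by exact_mod_cast Fintype.card_pos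
  have hXpos : 0 < X.card := by
    have : (0 : ℝ) < 3 * (X.card : ℝ) := lt_of_lt_of_le (by positivity) h5a
    have h' : (0 : ℝ) < (X.card : ℝ) := by linarith
    exact_mod_cast h'
  obtain ⟨l', y, hl'1, hl'2, hyX, hy0⟩ := hF2 G X (Finset.card_pos.1 hXpos)
  have hl'3 : l' ≤ 432 * P ^ 3 := ItemF5.l_bound l' P X.card (Fintype.card G) hP1 hXpos h5a hl'2
  have hch : ∀ i, ∃ x : G, lam • y i = lam • x ∧
      0 < rr gg w t x ∧ 1 / (2 * (P : ℝ)) / 2 * rr gg w t x ≤ ∑ p ∈ univ.filter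
        (fun p : Fin t → Ω => Good gg w Θ t p ∧ ∑ k, gg (p k) = x), ∏ k, w (p k) := by
    intro i
    have := hyX i
    rw [hX, Finset.mem_filter] at this
    exact this.2
  choose x hx1 hx2 hx3 using hch
  have hsum : ∑ k : Fin (l' * lam), x (finProdFinEquiv.symm k).1 = 0 := by
    rw [Equiv.sum_comp finProdFinEquiv.symm (fun q : Fin l' × Fin lam => x q.1),
      Fintype.sum_prod_type]
    simp only [Finset.sum_const, Finset.card_univ, Fintype.card_fin]
    calc ∑ i, lam • x i = ∑ i, lam • y i := Finset.sum_congr rfl fun i _ => (hx1 i).symm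
      _ = lam • ∑ i, y i := (Finset.smul_sum).symm
      _ = 0 := by rw [hy0, smul_zero]
  have hsmax2 : smax = 432 * P ^ 3 * lam * (s + l + 2) := by rw [hsmax, hP3]
  have hnt : l' * lam * t ≤ smax := by
    rw [hsmax2]
    exact Nat.mul_le_mul (Nat.mul_le_mul_right _ hl'3) ht2
  have hPt : 432 * (P * t) ≤ smax := by
    rw [hsmax2]
    have a1 : P ≤ P ^ 3 * lam := by
      calc P = P * 1 * 1 := by ring
        _ ≤ P * (P * P) * lam := Nat.mul_le_mul (Nat.mul_le_mul_left _ (Nat.mul_pos hP1 hP1)) hlam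
        _ = P ^ 3 * lam := by ring
    calc 432 * (P * t) ≤ 432 * (P ^ 3 * lam * (s + l + 2)) :=
          Nat.mul_le_mul_left _ (Nat.mul_le_mul a1 ht2)
      _ = 432 * P ^ 3 * lam * (s + l + 2) := by ring
  have hsz := ItemF5.size_bound P t ((l' * lam * t : ℕ) : ℝ) smax Θ W hPr
    (by exact_mod_cast (by omega : 1 ≤ t)) hΘ (Nat.cast_nonneg _) (by exact_mod_cast hPt)
    (by exact_mod_cast hnt) hbig
  have hW0 : 0 < W := by
    have h1 : (1 : ℝ) ≤ smax := by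
      have : 1 ≤ smax := by
        have : 1 ≤ 432 * (P * t) := by
          have := Nat.mul_pos hP1 (by omega : 0 < t)
          omega
        omega
      exact_mod_cast this
    have h2 : 0 < 8 * (smax : ℝ) ^ 2 * Θ ^ 2 := by
      have : 0 < Θ := by linarith
      positivity
    linarith
  obtain ⟨T, hT1, hT2, hT3⟩ := hF5b G Ω gg w Θ W (1 / (2 * (P : ℝ)) / 2) t (l' * lam)
    (fun k => x (finProdFinEquiv.symm k).1) hw hN hW0 hW hΘ.le (fun i => hx2 _)
    (fun i => hx3 _) (by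
      refine lt_of_le_of_lt (le_of_eq ?_) hsz
      push_cast
      ring)
  refine ⟨T, ?_, ?_, hT2, ?_⟩
  · rw [hT1]
    have : 1 * 2 ≤ l' * lam * t := Nat.mul_le_mul (Nat.mul_pos hl'1 hlam) (by omega)
    omega
  · rw [hT1]; exact hnt
  · rw [hT3, hsum]

end Pool.Agent.Work.MP_e0aece_nt.Eps
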