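import Pool.Agent.Work.MP_e0aece_nt.Bd.B06

namespace Pool.Agent.Work.MP_e0aece_nt.Eps

open Finset Sq

open Classical in
theorem claimF5b (hF4 : ClaimF4) : ClaimF5b := by
  intro G Ω _ _ _ _ gg w Θ W α t n
  induction n with
  | zero =>
    intro x _ _ _ _ _ _ _ _
    exact ⟨∅, by simp, by simp, by simp⟩
  | succ n ih =>
    intro x hw hN hW hmax hΘ hr hgood hsize
    have hsize' : (t : ℝ) ^ 2 * Θ ^ 2 + t * (n * t) * Θ < α * W := by
      refine lt_of_le_of_lt ?_ hsize
      push_cast
      have : (0 : ℝ) ≤ t * (1 * t) * Θ := by positivity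
      nlinarith
    obtain ⟨T, hT, hTw, hTs⟩ := ih (fun i => x i.castSucc) hw hN hW hmax hΘ
      (fun i => hr i.castSucc) (fun i => hgood i.castSucc) hsize'
    have hE : (t : ℝ) ^ 2 * Θ ^ 2 + t * T.card * Θ < α * W := by
      rw [hT]
      push_cast
      exact hsize'
    obtain ⟨p, hp, hpE, hps⟩ := hF4 G Ω gg w Θ W α t (x (Fin.last n)) T hw hN hW hmax hΘ
      (hr _) (hgood _) hE
    have hdisj : Disjoint T (Finset.univ.image p) := by
      rw [Finset.disjoint_right]
      intro a ha
      obtain ⟨k, _, rfl⟩ := Finset.mem_image.1 ha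
      exact (hpE k).1
    refine ⟨T ∪ Finset.univ.image p, ?_, ?_, ?_⟩
    · rw [Finset.card_union_of_disjoint hdisj, Finset.card_image_of_injective _ hp, hT,
        Finset.card_univ, Fintype.card_fin]
      ring
    · intro a ha
      rcases Finset.mem_union.1 ha with h | h
      · exact hTw a h
      · obtain ⟨k, _, rfl⟩ := Finset.mem_image.1 h
        exact (hpE k).2
    · rw [Finset.sum_union hdisj, hTs, Finset.sum_image fun a _ b _ h => hp h, hps,
        Fin.sum_univ_castSucc]

end Pool.Agent.Work.MP_e0aece_nt.Eps
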