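import Pool.Agent.Work.MP_e0aece_nt.Bd.B06
import Pool.Agent.Work.MP_e0aece_nt.Sandwich

/-!
# ItemG4: the chromatic numbers of Carmichael numbers, exponent 1 - eps (helper18)
-/

namespace Pool.Agent.Work.MP_e0aece_nt.Eps

open Finset Sq

namespace ItemG4

/-- the analytic facts on `M` -/
theorem large : ∃ M0 : ℕ, ∀ M, M0 ≤ M →
    2 ≤ M ∧ 4 ≤ (Real.log M) ^ 9 ∧ (2 * (Real.log M) ^ 9) ^ 4 ≤ (M : ℝ) := by
  have h1 : ∀ᶠ M : ℕ in Filter.atTop, (4 : ℝ) ≤ (Real.log M) ^ 9 := by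
    have : Filter.Tendsto (fun M : ℕ => (Real.log (M : ℝ)) ^ 9) Filter.atTop Filter.atTop :=
      (Filter.tendsto_pow_atTop (by norm_num)).comp
        (Real.tendsto_log_atTop.comp tendsto_natCast_atTop_atTop)
    exact this.eventually_ge_atTop 4
  have h2 : ∀ᶠ M : ℕ in Filter.atTop, (2 * (Real.log M) ^ 9) ^ 4 ≤ (M : ℝ) := by
    have h := (Real.isLittleO_pow_log_id_atTop (n := 36)).def (show (0 : ℝ) < 1 / 16 by norm_num)
    have h' := tendsto_natCast_atTop_atTop (R := ℝ) |>.eventually h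
    filter_upwards [h', Filter.eventually_ge_atTop 1] with M hM hM1
    have hM0 : (0 : ℝ) ≤ M := Nat.cast_nonneg M
    have hlog : 0 ≤ Real.log (M : ℝ) := Real.log_natCast_nonneg M
    rw [id, Real.norm_of_nonneg hM0, Real.norm_of_nonneg (pow_nonneg hlog _)] at hM
    have : (2 * (Real.log M) ^ 9) ^ 4 = 16 * (Real.log M) ^ 36 := by ring
    rw [this]
    linarith
  obtain ⟨M0, hM0⟩ := Filter.eventually_atTop.1 ((h1.and h2).and (Filter.eventually_ge_atTop 2))
  exact ⟨M0, fun M hM => ⟨(hM0 M hM).2, (hM0 M hM).1.1, (hM0 M hM).1.2⟩⟩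

/-- pigeonhole -/
theorem exists_fiber {α : Type} [DecidableEq α] (P : Finset α) {K : ℕ} (f : α → Fin K)
    (hK : 0 < K) : ∃ c : Fin K, P.card ≤ K * (P.filter fun a => f a = c).card := by
  by_contra hcon
  push Not at hcon
  have h1 : P.card = ∑ c : Fin K, (P.filter fun a => f a = c).card :=
    Finset.card_eq_sum_card_fiberwise (fun a _ => Finset.mem_univ (f a))
  have h2 : ∑ c : Fin K, K * (P.filter fun a => f a = c).card < ∑ c : Fin K, P.card := by
    refine Finset.sum_lt_sum_of_nonempty ?_ (fun c _ => hcon c)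
    exact ⟨⟨0, hK⟩, Finset.mem_univ _⟩
  rw [← Finset.mul_sum, ← h1, Finset.sum_const, Finset.card_univ, Fintype.card_fin,
    smul_eq_mul] at h2
  exact lt_irrefl _ h2

/-- `2 ^ v` divides `k`, so `v ≤ log k / log 2`. -/
theorem val_le {k X M : ℕ} (hk : k ≠ 0) (hkX : k ≤ X)
    (hX : Real.log X / Real.log 2 ≤ (M : ℝ) ^ 2) : padicValNat 2 k ≤ M ^ 2 := by
  have h1 : 2 ^ padicValNat 2 k ≤ X :=
    (Nat.le_of_dvd (Nat.pos_of_ne_zero hk) pow_padicValNat_dvd).trans hkX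
  have h2 : ((padicValNat 2 k : ℕ) : ℝ) * Real.log 2 ≤ Real.log X := by
    rw [← Real.log_pow]
    refine Real.log_le_log (by positivity) ?_
    exact_mod_cast h1
  have h3 : ((padicValNat 2 k : ℕ) : ℝ) ≤ (M : ℝ) ^ 2 := by
    refine le_trans ?_ hX
    rw [le_div_iff₀ (Real.log_pos (by norm_num))]
    exact h2
  exact_mod_cast h3

theorem ures_coe {q : ℕ} [Fact q.Prime] {x : ZMod q} (hx : x ≠ 0) : (ures x : ZMod q) = x := by
  rw [ures, dif_neg hx, Units.val_mk0]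

theorem card_tors (q lam : ℕ) [Fact q.Prime] (hlam : 0 < lam) [DecidableEq (Additive (ZMod q)ˣ)] :
    (univ.filter fun x : Additive (ZMod q)ˣ => lam • x = 0).card ≤ lam := by
  classical
  refine le_trans ?_ (IsCyclic.card_pow_eq_one_le (α := (ZMod q)ˣ) hlam)
  refine Finset.card_le_card_of_injOn Additive.toMul ?_ ?_
  · intro x hx
    have h1 : lam • x = 0 := (Finset.mem_filter.1 hx).2
    have h2 : (Additive.toMul x) ^ lam = 1 := by
      rw [← toMul_nsmul, h1, toMul_zero]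
    exact Finset.mem_coe.2 (Finset.mem_filter.2 ⟨Finset.mem_univ _, h2⟩)
  · intro x _ y _ hxy
    exact Additive.toMul.injective hxy

end ItemG4

open ItemG4 in
theorem claimG4 (hEps : ClaimEps) (hG5 : ClaimG5) (hBc : ClaimBcount) (hC : ClaimC)
    (hD1 : ClaimD1) (hD2 : ClaimD2) (hD3 : ClaimD3) : ClaimG4 := by
  classical
  intro ε hε hε10
  obtain ⟨M1, hC⟩ := hC
  obtain ⟨M2, hBc⟩ := hBc
  obtain ⟨M3, hD1⟩ := hD1
  obtain ⟨Jr, M4, hG5⟩ := hG5 ε hε hε10
  obtain ⟨M5, hlarge⟩ := large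
  refine ⟨max (max M1 M2) (max (max M3 M4) M5), fun M hM => ?_⟩
  obtain ⟨y, hy⟩ : ∃ y : ℕ, y = ⌊(M : ℝ) ^ (1 - 2 * ε)⌋₊ := ⟨_, rfl⟩
  simp only [max_le_iff] at hM
  obtain ⟨⟨hM1, hM2⟩, ⟨hM3, hM4⟩, hM5⟩ := hM
  obtain ⟨h2M, hl4, hl36⟩ := hlarge M hM5
  have hMpos : 0 < M := by omega
  set t : ℝ := (Real.log M) ^ 9 with ht
  have hlog1 : 1 ≤ Real.log (M : ℝ) := by
    by_contra hlt
    push Not at hlt
    have : t ≤ 1 := pow_le_one₀ (Real.log_natCast_nonneg M) hlt.le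
    linarith
  obtain ⟨L, hL⟩ : ∃ L : ℕ, L = ⌈t⌉₊ := ⟨_, rfl⟩
  have hL1 : t ≤ L := by rw [hL]; exact Nat.le_ceil t
  have hL2 : (L : ℝ) < t + 1 := by rw [hL]; exact Nat.ceil_lt_add_one (by linarith)
  have hL3 : (Real.log M) ^ 8 ≤ (L : ℝ) := by
    refine le_trans ?_ hL1
    exact pow_le_pow_right₀ hlog1 (by norm_num)
  have hL4 : L ^ 4 ≤ M := by
    have : (L : ℝ) ^ 4 ≤ M := by
      refine le_trans (pow_le_pow_left₀ (Nat.cast_nonneg L) ?_ 4) hl36
      linarith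
    exact_mod_cast this
  obtain ⟨lam, p, hlamP, hlamL, hlam4, hPr, hGap, hAP⟩ := hC M hM1 L hL3 hL4
  have hlam1 : t ≤ lam := hL1.trans (by exact_mod_cast hlamL.le)
  have hlam5 : (lam : ℝ) ≤ 5 * t := by
    have : (lam : ℝ) ≤ 4 * L := by exact_mod_cast hlam4
    linarith
  have hlamM : lam ≤ M := by
    have h1 : (lam : ℝ) ≤ M := by
      refine hlam5.trans (le_trans ?_ hl36)
      have h3 : (1 : ℝ) ≤ t := by linarith
      have h4 : t ≤ t ^ 4 := by
        calc t = t ^ 1 := (pow_one t).symm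
          _ ≤ t ^ 4 := pow_le_pow_right₀ h3 (by norm_num)
      rw [mul_pow]
      linarith
    exact_mod_cast h1
  have hfact : ∀ i, Fact (p i).Prime := fun i => ⟨(hPr.2 i).1⟩
  obtain ⟨m, s, l, smax, hm, hm100, hm20, hu1, hyu, hJr, hs1, hs2, hlamM', hsmax, hsq, hM3y, hsX,
    hX⟩ := hG5 M hM4 lam hlamP.one_le hlam5
  rw [← hy] at hyu hM3y
  obtain ⟨k, P, hk1, hk2, hcop, hPRv, hP, hPcard⟩ := hD1 M hM3 lam m p hPr hAP
    (fun K hK => hBc M hM2 lam m p hlam1 hlamM hm hPr (hGap hfact) K hK)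
  have hM20 : 2 ≤ M ^ 20 := le_trans h2M (Nat.le_self_pow (by norm_num) M)
  have hk8 : 2 ≤ k := by omega
  have hdd : ∀ A, Odd (dd p A) := by
    intro A
    rw [dd]
    refine Finset.prod_induction _ Odd (fun a b ha hb => ha.mul hb) odd_one ?_
    intro i _
    refine (hPr.2 i).1.odd_of_ne_two ?_
    have := (hPr.2 i).2.1
    omega
  have hddpos : ∀ A, 0 < dd p A := fun A => (hdd A).pos
  have hPA : ∀ A, k < dd p A * k + 1 := by
    intro A
    have : 1 * k ≤ dd p A * k := Nat.mul_le_mul_right k (hddpos A)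
    omega
  have hPne : P.Nonempty := by
    rw [← Finset.card_pos]
    by_contra h0
    have h0' : P.card = 0 := by omega
    rw [h0', zero_mul] at hPcard
    have : 0 < 2 ^ M := by positivity
    omega
  have hkeven : Even k := by
    obtain ⟨A, hA'⟩ := hPne
    have h1 := (hP A hA').1
    have h2 : Odd (dd p A * k + 1) := by
      refine h1.odd_of_ne_two ?_
      have := hPA A
      omega
    have h3 : Even (dd p A * k) := by
      rcases Nat.even_or_odd (dd p A * k) with h | h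
      · exact h
      · exact absurd h2 (by rw [Nat.not_odd_iff_even]; exact h.add_one)
    rcases Nat.even_mul.1 h3 with h | h
    · exact absurd (hdd A) (by rwa [Nat.not_odd_iff_even])
    · exact h
  have hk0 : k ≠ 0 := by omega
  refine ⟨padicValNat 2 k, ?_, ?_, fun x hx => ?_⟩
  · exact one_le_padicValNat_of_dvd hk0 hkeven.two_dvd
  · exact val_le hk0 hk2 hX
  by_contra hchi
  push Not at hchi
  rw [← hy] at hchi
  obtain ⟨c, hc⟩ := chi_spec (padicValNat 2 k) x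
  have hKpos : 0 < chi (padicValNat 2 k) x := by
    have := (c 0).2
    omega
  obtain ⟨c0, hc0⟩ := exists_fiber P (fun A => c (dd p A * k + 1)) hKpos
  set C := P.filter (fun A => c (dd p A * k + 1) = c0) with hCdef
  have hCcard : 2 ^ Fintype.card (Fin M) ≤ C.card * 2 ^ (2 * y) := by
    rw [Fintype.card_fin]
    calc 2 ^ M ≤ P.card * M ^ 3 := hPcard
      _ ≤ (chi (padicValNat 2 k) x * C.card) * 2 ^ y := Nat.mul_le_mul hc0 hM3y
      _ ≤ (2 ^ y * C.card) * 2 ^ y := Nat.mul_le_mul_right _ (Nat.mul_le_mul_right _ hchi)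
      _ = C.card * 2 ^ (2 * y) := by ring
  let u : ∀ i, (ZMod (p i))ˣ := fun i => ZMod.unitOfCoprime k (hcop i)
  have hu : ∀ i, (u i : ZMod (p i)) = (k : ZMod (p i)) := fun i => ZMod.coe_unitOfCoprime k (hcop i)
  have hPR := hD3 M lam m k p u hu (hPRv u hu)
  have hcardH : ∀ i, Fintype.card (Additive (ZMod (p i))ˣ) ≤ 4 * M ^ 20 := by
    intro i
    have h2 : Fintype.card (Additive (ZMod (p i))ˣ) = Fintype.card (ZMod (p i))ˣ :=
      Fintype.card_congr Additive.toMul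
    rw [h2, ZMod.card_units]
    have := (hPr.2 i).2.2.1
    omega
  have hZ : 2 ≤ 4 * M ^ 20 := by omega
  have hM0 : (0 : ℝ) < M := by exact_mod_cast hMpos
  obtain ⟨B, I, T, hIB, hBm, hTC, hT2, hTs, hTI, hsum⟩ := hEps (Fin M)
    (fun i => Additive (ZMod (p i))ˣ)
    (fun A i => Additive.ofMul (ures (((dd p A * k + 1 : ℕ)) : ZMod (p i)))) lam m (2 * y)
    (4 * M ^ 20) Jr s l smax ((M : ℝ) ^ (-ε)) C
    hlamP.one_le hZ hcardH (fun i => card_tors (p i) lam hlamP.pos) hPR hm100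
    (by rw [Fintype.card_fin]; exact hm20) (Real.rpow_pos_of_pos hM0 _) hu1 hyu
    (by rw [Fintype.card_fin]; exact hJr) hCcard
    (by rw [Fintype.card_fin]; exact hs1) (by rw [Fintype.card_fin]; exact hs2)
    (by rw [Fintype.card_fin]; exact hlamM') hsmax (by rw [Fintype.card_fin]; exact hsq)
  have hTP : ∀ A ∈ T, A ∈ P ∧ c (dd p A * k + 1) = c0 := fun A hAT =>
    Finset.mem_filter.1 (hTC hAT)
  have hprod : ∀ i, i ∉ B → ((∏ A ∈ T, (dd p A * k + 1) : ℕ) : ZMod (p i)) = 1 := by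
    intro i hi
    have h1 : ∏ A ∈ T, ures (((dd p A * k + 1 : ℕ)) : ZMod (p i)) = 1 := by
      have h2 := congrArg Additive.toMul (hsum i hi)
      rw [toMul_sum, toMul_zero] at h2
      exact h2
    have h3 := congrArg (fun z : (ZMod (p i))ˣ => (z : ZMod (p i))) h1
    simp only [Units.coe_prod, Units.val_one] at h3
    rw [Nat.cast_prod, ← h3]
    refine Finset.prod_congr rfl fun A hAT => ?_
    rw [ures_coe]
    intro h0
    rw [ZMod.natCast_eq_zero_iff] at h0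
    have h4 := (Nat.prime_dvd_prime_iff_eq (hPr.2 i).1 (hP A (hTP A hAT).1).1).1 h0
    have h5 := (hPr.2 i).2.2.1
    have h6 := hPA A
    omega
  obtain ⟨hcar, hfac⟩ := hD2 M k p B I T hPr.1
    (fun i => ⟨(hPr.2 i).1, by have := (hPr.2 i).2.1; omega, hcop i⟩) hk8 hIB
    hT2 hTI (fun A hAT => (hP A (hTP A hAT).1).1) hprod
  have hsize : ((∏ A ∈ T, (dd p A * k + 1) : ℕ) : ℝ) ≤ x := by
    refine le_trans ?_ (le_trans (Real.exp_le_exp.2 hsX) hx)
    have h1 : (∏ A ∈ T, (dd p A * k + 1)) ≤ (2 * XM M + 1) ^ smax := by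
      calc (∏ A ∈ T, (dd p A * k + 1)) ≤ ∏ _A ∈ T, (2 * XM M + 1) := by
            refine Finset.prod_le_prod' fun A hAT => ?_
            have := (hP A (hTP A hAT).1).2
            omega
        _ = (2 * XM M + 1) ^ T.card := by rw [Finset.prod_const]
        _ ≤ (2 * XM M + 1) ^ smax := Nat.pow_le_pow_right (Nat.succ_pos _) hTs
    have h2 : (0 : ℝ) < 2 * (XM M : ℝ) + 1 := by positivity
    calc ((∏ A ∈ T, (dd p A * k + 1) : ℕ) : ℝ) ≤ (((2 * XM M + 1) ^ smax : ℕ) : ℝ) := by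
          exact_mod_cast h1
      _ = (2 * (XM M : ℝ) + 1) ^ smax := by push_cast; ring
      _ = Real.exp ((smax : ℝ) * Real.log (2 * (XM M : ℝ) + 1)) := by
          rw [Real.exp_nat_mul, Real.exp_log h2]
  obtain ⟨q1, q2, hq1, hq1n, hq2, hq2n, hne⟩ := hc _ hcar hsize
    (fun r hr hrn => (hfac r hr hrn).2)
  obtain ⟨⟨A1, hA1, e1⟩, -⟩ := hfac q1 hq1 hq1n
  obtain ⟨⟨A2, hA2, e2⟩, -⟩ := hfac q2 hq2 hq2n
  apply hne
  rw [e1, e2, (hTP A1 hA1).2, (hTP A2 hA2).2]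

end Pool.Agent.Work.MP_e0aece_nt.Eps
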