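import Mathlib
import Pool.Agent.Work.MP_e0aece_nt.Bd.B06

/-! # MP_e0aece_nt, Eps: item G5, the numerical conditions (assembly) -/

namespace Pool.Agent.Work.MP_e0aece_nt.Eps

theorem claimG5 (hG5a : ClaimG5a) (hG5b : ClaimG5b) : ClaimG5 := by
  intro ε hε hε1
  obtain ⟨Jr, M0, ha⟩ := hG5a ε hε hε1
  obtain ⟨M0', hb⟩ := hG5b ε Jr hε
  refine ⟨Jr, max M0 M0', fun M hM lam hlam hlam2 => ?_⟩
  obtain ⟨m, a1, a2, a3, a4, a5, a6, a7, a8, a9⟩ := ha M (le_trans (le_max_left _ _) hM)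
  obtain ⟨s, l, smax, b1, b2, b3, b4, b5, b6⟩ :=
    hb M (le_trans (le_max_right _ _) hM) lam m hlam hlam2 (by omega) a2
  exact ⟨m, s, l, smax, a1, a3, a4, a5, a6, a7, b1, b2, b3, b4, b5, a8, b6, a9⟩

end Pool.Agent.Work.MP_e0aece_nt.Eps
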