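import Pool.Agent.Work.MP_e0aece_nt.Bd.B06

/-!
# Item G5a: the first part of the numerical conditions
-/

namespace Pool.Agent.Work.MP_e0aece_nt.Eps

open Finset Sq

namespace ItemG5a

lemma ev_log_pow (c s : ℝ) (hs : 0 < s) :
    ∀ᶠ x : ℝ in Filter.atTop, c * Real.log x ^ 4 ≤ x ^ s := by
  have h := isLittleO_log_rpow_rpow_atTop (4 : ℝ) hs
  have h2 := h.def (c := 1 / (|c| + 1)) (by positivity)
  filter_upwards [h2, Filter.eventually_ge_atTop (1 : ℝ)] with x hx hx1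
  have hl : 0 ≤ Real.log x := Real.log_nonneg hx1
  have e1 : Real.log x ^ (4 : ℝ) = Real.log x ^ 4 := by
    rw [← Real.rpow_natCast]; norm_num
  rw [e1, Real.norm_of_nonneg (by positivity), Real.norm_of_nonneg (by positivity)] at hx
  have hc : c ≤ |c| + 1 := by linarith [le_abs_self c]
  calc c * Real.log x ^ 4 ≤ (|c| + 1) * Real.log x ^ 4 := by gcongr
    _ ≤ (|c| + 1) * (1 / (|c| + 1) * x ^ s) := by gcongr
    _ = x ^ s := by field_simp

lemma ev_log (c s : ℝ) (hs : 0 < s) :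
    ∀ᶠ x : ℝ in Filter.atTop, c * Real.log x ≤ x ^ s := by
  have h := isLittleO_log_rpow_atTop hs
  have h2 := h.def (c := 1 / (|c| + 1)) (by positivity)
  filter_upwards [h2, Filter.eventually_ge_atTop (1 : ℝ)] with x hx hx1
  have hl : 0 ≤ Real.log x := Real.log_nonneg hx1
  rw [Real.norm_of_nonneg hl, Real.norm_of_nonneg (by positivity)] at hx
  have hc : c ≤ |c| + 1 := by linarith [le_abs_self c]
  calc c * Real.log x ≤ (|c| + 1) * Real.log x := by gcongr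
    _ ≤ (|c| + 1) * (1 / (|c| + 1) * x ^ s) := by gcongr
    _ = x ^ s := by field_simp

lemma ev_const (c s : ℝ) (hs : 0 < s) :
    ∀ᶠ x : ℝ in Filter.atTop, c ≤ x ^ s :=
  (tendsto_rpow_atTop hs).eventually_ge_atTop c

end ItemG5a

open ItemG5a in
theorem claimG5a : ClaimG5a := by
  intro ε hε hε1
  set Jr : ℕ := ⌈1 / ε⌉₊ + 1 with hJr
  have key : ∀ᶠ x : ℝ in Filter.atTop, 3 ≤ Real.log x ∧ 101 * Real.log x ^ 4 ≤ x ^ (1 : ℝ) ∧
      1000 ≤ x ^ ε ∧ 12 * Real.log x ^ 4 ≤ x ^ ε ∧ (550 : ℝ) ^ Jr + 1 ≤ x ^ ε ∧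
      10 * Real.log x ≤ x ^ (4 / 5 : ℝ) ∧ 5000 * Real.log x ≤ x ^ (1 : ℝ) ∧ 1 ≤ x := by
    filter_upwards [Real.tendsto_log_atTop.eventually_ge_atTop 3, ev_log_pow 101 1 one_pos,
      ev_const 1000 ε hε, ev_log_pow 12 ε hε, ev_const ((550 : ℝ) ^ Jr + 1) ε hε,
      ev_log 10 (4 / 5) (by norm_num), ev_log 5000 1 one_pos,
      Filter.eventually_ge_atTop (1 : ℝ)] with x h1 h2 h3 h4 h5 h6 h7 h8
    exact ⟨h1, h2, h3, h4, h5, h6, h7, h8⟩
  have key2 := tendsto_natCast_atTop_atTop (R := ℝ) |>.eventually key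
  obtain ⟨M0, hM0⟩ := Filter.eventually_atTop.1 key2
  refine ⟨Jr, M0, fun M hM => ?_⟩
  obtain ⟨h1, h2, h3, h4, h5, h6, h7, h8⟩ := hM0 M hM
  rw [Real.rpow_one] at h2 h7
  set x : ℝ := (M : ℝ) with hx
  set L : ℝ := Real.log x with hL
  have hx0 : 0 < x := by linarith
  have hL4 : (81 : ℝ) ≤ L ^ 4 := by
    calc (81 : ℝ) = 3 ^ 4 := by norm_num
      _ ≤ L ^ 4 := by gcongr
  have hL4p : 0 < L ^ 4 := by linarith
  have hq : 101 ≤ x / L ^ 4 := by rw [le_div_iff₀ hL4p]; linarith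
  set m : ℕ := ⌊x / L ^ 4⌋₊ with hm
  have hm1 : (m : ℝ) ≤ x / L ^ 4 := Nat.floor_le (by positivity)
  have hm2 : x / L ^ 4 < m + 1 := Nat.lt_floor_add_one _
  have hm3 : (m : ℝ) * L ^ 4 ≤ x := by rwa [le_div_iff₀ hL4p] at hm1
  have hm4 : x / L ^ 4 ≤ 2 * m := by linarith
  have hm5 : x ≤ 2 * m * L ^ 4 := by rwa [div_le_iff₀ hL4p] at hm4
  have hm6 : 100 ≤ m := by
    have : (100 : ℝ) < m := by linarith
    exact_mod_cast this.le
  have hxe : 0 < x ^ ε := Real.rpow_pos_of_pos hx0 _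
  have hxne : x ^ (-ε) = (x ^ ε)⁻¹ := Real.rpow_neg hx0.le ε
  refine ⟨m, hm3, hm5, hm6, ?_, ?_, ?_, ?_, ?_, ?_⟩
  · have : (20 * m : ℝ) ≤ M := by
      have : (m : ℝ) * 20 ≤ m * L ^ 4 := by gcongr; linarith
      linarith
    exact_mod_cast this
  · rw [hxne, inv_le_comm₀ hxe (by norm_num)]
    norm_num
    exact h3
  · have hf : ((⌊x ^ (1 - 2 * ε)⌋₊ : ℕ) : ℝ) ≤ x ^ (1 - 2 * ε) :=
      Nat.floor_le (by positivity)
    have h1x : 1 ≤ x ^ (1 - 2 * ε) := Real.one_le_rpow h8 (by linarith)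
    push_cast
    have e1 : x ^ (-ε) * m = (x ^ ε)⁻¹ * m := by rw [hxne]
    rw [e1, inv_mul_eq_div, le_div_iff₀ hxe]
    have e2 : x ^ (1 - 2 * ε) * x ^ ε * x ^ ε = x := by
      rw [← Real.rpow_add hx0, ← Real.rpow_add hx0]
      have : 1 - 2 * ε + ε + ε = 1 := by ring
      rw [this, Real.rpow_one]
    have e3 : 2 * (2 * ((⌊x ^ (1 - 2 * ε)⌋₊ : ℕ) : ℝ) + 1) * x ^ ε ≤
        6 * x ^ (1 - 2 * ε) * x ^ ε := by
      have : 2 * (2 * ((⌊x ^ (1 - 2 * ε)⌋₊ : ℕ) : ℝ) + 1) ≤ 6 * x ^ (1 - 2 * ε) := by linarith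
      gcongr
    refine e3.trans ?_
    have e4 : 6 * x ^ (1 - 2 * ε) * x ^ ε * (2 * L ^ 4) ≤ m * (2 * L ^ 4) := by
      calc 6 * x ^ (1 - 2 * ε) * x ^ ε * (2 * L ^ 4)
          = x ^ (1 - 2 * ε) * x ^ ε * (12 * L ^ 4) := by ring
        _ ≤ x ^ (1 - 2 * ε) * x ^ ε * x ^ ε := by gcongr
        _ = x := e2
        _ ≤ 2 * m * L ^ 4 := hm5
        _ = m * (2 * L ^ 4) := by ring
    exact le_of_mul_le_mul_right e4 (by positivity)
  · have hceil : 1 / ε ≤ (⌈1 / ε⌉₊ : ℝ) := Nat.le_ceil _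
    have hceil2 : 1 ≤ ε * (⌈1 / ε⌉₊ : ℝ) := by
      rw [div_le_iff₀ hε] at hceil
      linarith
    have e1 : (x ^ ε) ^ Jr = x ^ (ε * Jr) := by
      rw [Real.rpow_mul hx0.le, Real.rpow_natCast]
    have e2 : x ^ (1 + ε) ≤ x ^ (ε * Jr) := by
      apply Real.rpow_le_rpow_of_exponent_le h8
      rw [hJr]; push_cast; nlinarith
    have e3 : x ^ (1 + ε) = x * x ^ ε := by
      rw [Real.rpow_add hx0, Real.rpow_one]
    rw [hxne, mul_pow, inv_pow, e1, ← mul_assoc, ← div_eq_mul_inv,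
      div_lt_one (by positivity)]
    refine lt_of_lt_of_le ?_ e2
    rw [e3]
    have : (550 : ℝ) ^ Jr < x ^ ε := by linarith
    gcongr
  · have hfl : x ^ (1 - 2 * ε) - 1 ≤ ((⌊x ^ (1 - 2 * ε)⌋₊ : ℕ) : ℝ) := by
      have := Nat.lt_floor_add_one (x ^ (1 - 2 * ε))
      linarith
    have h45 : x ^ (4 / 5 : ℝ) ≤ x ^ (1 - 2 * ε) :=
      Real.rpow_le_rpow_of_exponent_le h8 (by linarith)
    have hlog2 : (0.69 : ℝ) ≤ Real.log 2 := by
      have := Real.log_two_gt_d9; linarith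
    set n : ℕ := ⌊x ^ (1 - 2 * ε)⌋₊ with hn
    have hn1 : 9 * L ≤ n := by linarith
    have : Real.log (x ^ 3) ≤ Real.log ((2 : ℝ) ^ n) := by
      rw [Real.log_pow, Real.log_pow]
      push_cast
      have : 9 * L * 0.69 ≤ n * Real.log 2 := by
        have : 0 ≤ (n : ℝ) := by positivity
        gcongr
      rw [← hL]
      linarith
    have h3' : x ^ 3 ≤ (2 : ℝ) ^ n := by
      rwa [Real.log_le_log_iff (by positivity) (by positivity)] at this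
    have : ((M ^ 3 : ℕ) : ℝ) ≤ ((2 ^ n : ℕ) : ℝ) := by push_cast; exact h3'
    exact_mod_cast this
  · have hlog2 : (0.69 : ℝ) ≤ Real.log 2 := by
      have := Real.log_two_gt_d9; linarith
    have hXM : Real.log (XM M) = 3000 * x * L := by
      rw [XM]; push_cast
      rw [Real.log_pow]; push_cast; ring
    rw [hXM, div_le_iff₀ (by linarith)]
    have e1 : 3000 * x * L ≤ x * (x * 0.69) := by nlinarith
    calc 3000 * x * L ≤ x * (x * 0.69) := e1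
      _ = x ^ 2 * 0.69 := by ring
      _ ≤ x ^ 2 * Real.log 2 := by gcongr

end Pool.Agent.Work.MP_e0aece_nt.Eps
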