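import Pool.Agent.Work.MP_e0aece_nt.Bd.B06

open Real Filter Asymptotics

namespace Pool.Agent.Work.MP_e0aece_nt.Eps

open Sq

namespace ItemG5b

/-- the eventual inequalities, over the reals -/
theorem ev (ε C : ℝ) (hε : 0 < ε) : ∀ᶠ x : ℝ in atTop,
    5000 ≤ Real.log x ∧ 8 ≤ Real.log (Real.log x) ∧
    C * (Real.log (Real.log x)) ^ 2 ≤ min ε 1 * Real.log x ∧
    8 * x ^ 2 ≤ (2 : ℝ) ^ ((1 / 20 : ℝ) * x) ∧ 3001 * Real.log x ≤ x ^ ε := by
  have h1 : ∀ᶠ x : ℝ in atTop, 5000 ≤ Real.log x :=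
    Real.tendsto_log_atTop.eventually_ge_atTop 5000
  have h2 : ∀ᶠ x : ℝ in atTop, 8 ≤ Real.log (Real.log x) :=
    (Real.tendsto_log_atTop.comp Real.tendsto_log_atTop).eventually_ge_atTop 8
  have hmin : 0 < min ε 1 := lt_min hε one_pos
  have h3' : ∀ᶠ y : ℝ in atTop, C * (Real.log y) ^ 2 ≤ min ε 1 * y := by
    have hl := Real.isLittleO_pow_log_id_atTop (n := 2)
    have hc : 0 < min ε 1 / (|C| + 1) := by positivity
    filter_upwards [hl.bound hc, eventually_ge_atTop (0 : ℝ)] with y hy hy0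
    have hy' : (Real.log y) ^ 2 ≤ min ε 1 / (|C| + 1) * y := by
      have e1 : ‖Real.log y ^ 2‖ = (Real.log y) ^ 2 := by
        rw [Real.norm_eq_abs, abs_of_nonneg (sq_nonneg _)]
      have e2 : ‖id y‖ = y := by simp [abs_of_nonneg hy0]
      rw [e1, e2] at hy
      exact hy
    have hC : C ≤ |C| + 1 := by linarith [le_abs_self C]
    have hCp : 0 < |C| + 1 := by positivity
    calc C * (Real.log y) ^ 2 ≤ (|C| + 1) * (Real.log y) ^ 2 :=
          mul_le_mul_of_nonneg_right hC (sq_nonneg _)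
      _ ≤ (|C| + 1) * (min ε 1 / (|C| + 1) * y) := mul_le_mul_of_nonneg_left hy' hCp.le
      _ = min ε 1 * y := by field_simp
  have h3 : ∀ᶠ x : ℝ in atTop, C * (Real.log (Real.log x)) ^ 2 ≤ min ε 1 * Real.log x :=
    Real.tendsto_log_atTop.eventually h3'
  have h4 : ∀ᶠ x : ℝ in atTop, 8 * x ^ 2 ≤ (2 : ℝ) ^ ((1 / 20 : ℝ) * x) := by
    have hb : 0 < Real.log 2 / 20 := by
      have := Real.log_pos (by norm_num : (1 : ℝ) < 2)
      positivity
    have hl := isLittleO_pow_exp_pos_mul_atTop 2 hb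
    filter_upwards [hl.bound (by norm_num : (0 : ℝ) < 1 / 8)] with x hx
    have e1 : ‖x ^ 2‖ = x ^ 2 := by rw [Real.norm_eq_abs, abs_of_nonneg (sq_nonneg _)]
    rw [e1, Real.norm_eq_abs, abs_of_pos (Real.exp_pos _)] at hx
    have e3 : (2 : ℝ) ^ ((1 / 20 : ℝ) * x) = Real.exp (Real.log 2 / 20 * x) := by
      rw [Real.rpow_def_of_pos (by norm_num)]
      congr 1
      ring
    rw [e3]
    linarith
  have h5 : ∀ᶠ x : ℝ in atTop, 3001 * Real.log x ≤ x ^ ε := by
    have hl := isLittleO_log_rpow_atTop hε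
    filter_upwards [hl.bound (by norm_num : (0 : ℝ) < 1 / 3001), h1,
      eventually_ge_atTop (0 : ℝ)] with x hx hx1 hx0
    rw [Real.norm_eq_abs, abs_of_nonneg (by linarith), Real.norm_eq_abs,
      abs_of_nonneg (Real.rpow_nonneg hx0 _)] at hx
    linarith
  filter_upwards [h1, h2, h3, h4, h5] with x a b c d e
  exact ⟨a, b, c, d, e⟩

theorem log6_lt : Real.log 6 < 2 := by
  have h := Real.log_lt_log (by norm_num : (0 : ℝ) < 6)
    (show (6 : ℝ) < Real.exp 1 ^ 2 by nlinarith [Real.exp_one_gt_d9])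
  rwa [Real.log_pow, Real.log_exp, Nat.cast_ofNat, mul_one] at h

theorem log4_lt : Real.log 4 < 2 :=
  (Real.log_lt_log (by norm_num) (by norm_num : (4 : ℝ) < 6)).trans log6_lt

theorem log3_lt : Real.log 3 < 2 :=
  (Real.log_lt_log (by norm_num) (by norm_num : (3 : ℝ) < 6)).trans log6_lt

theorem log5_lt : Real.log 5 < 2 :=
  (Real.log_lt_log (by norm_num) (by norm_num : (5 : ℝ) < 6)).trans log6_lt

end ItemG5b

open ItemG5b in
theorem claimG5b : ClaimG5b := by
  intro ε Jr hε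
  obtain ⟨K, hK⟩ : ∃ K : ℕ, K = 2 * Jr + 8 := ⟨_, rfl⟩
  obtain ⟨C, hC⟩ : ∃ C : ℝ, C = 11 + 121 * ((K : ℝ) + 1) := ⟨_, rfl⟩
  have hev := tendsto_natCast_atTop_atTop.eventually (ev ε C hε)
  obtain ⟨M0, hM0⟩ := eventually_atTop.1 hev
  refine ⟨max M0 1, fun M hM lam m hlam hlam2 hm hMm => ?_⟩
  obtain ⟨hL, hLL, hCL, h8, h3001⟩ := hM0 M (le_trans (le_max_left _ _) hM)
  have hM1 : 1 ≤ M := le_trans (le_max_right _ _) hM
  have hMr : (1 : ℝ) ≤ M := by exact_mod_cast hM1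
  have hMpos : (0 : ℝ) < M := by linarith
  have hmr : (1 : ℝ) ≤ m := by exact_mod_cast hm
  have hmpos : (0 : ℝ) < m := by linarith
  have hlamr : (1 : ℝ) ≤ lam := by exact_mod_cast hlam
  have hlampos : (0 : ℝ) < lam := by linarith
  set L := Real.log M with hLdef
  have hLpos : 0 < L := by linarith
  have hL1 : 1 ≤ L := by linarith
  have hlog2 : 0.69 < Real.log 2 := by have := Real.log_two_gt_d9; linarith
  have hlog2p : 0 < Real.log 2 := by linarith
  -- estimates of the logarithms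
  have e6 : Real.log (6 * (M : ℝ)) ≤ 2 + L := by
    rw [Real.log_mul (by norm_num) hMpos.ne']
    linarith [log6_lt]
  have e6' : 0 ≤ Real.log (6 * (M : ℝ)) := Real.log_nonneg (by linarith)
  have e20 : Real.log ((4 * M ^ 20 : ℕ) : ℝ) ≤ 2 + 20 * L := by
    push_cast
    rw [Real.log_mul (by norm_num) (by positivity), Real.log_pow]
    push_cast
    linarith [log4_lt]
  have e20' : 0 ≤ Real.log ((4 * M ^ 20 : ℕ) : ℝ) := by
    apply Real.log_nonneg
    push_cast
    have : (1 : ℝ) ≤ (M : ℝ) ^ 20 := one_le_pow₀ hMr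
    linarith
  have e21 : Real.log (((M : ℝ) + 1) * ((4 * M ^ 20 : ℕ) : ℝ)) ≤ 4 + 21 * L := by
    have hpos : (0 : ℝ) < ((4 * M ^ 20 : ℕ) : ℝ) := by
      push_cast
      positivity
    rw [Real.log_mul (by positivity) hpos.ne']
    have : Real.log ((M : ℝ) + 1) ≤ 2 + L := by
      refine le_trans (Real.log_le_log (by positivity) ?_) e6
      linarith
    linarith
  have e21' : 0 ≤ Real.log (((M : ℝ) + 1) * ((4 * M ^ 20 : ℕ) : ℝ)) := by
    apply Real.log_nonneg
    push_cast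
    have : (1 : ℝ) ≤ (M : ℝ) ^ 20 := one_le_pow₀ hMr
    nlinarith
  have eMm : (M : ℝ) / m ≤ 2 * L ^ 4 := by
    rw [div_le_iff₀ hmpos]
    linarith
  have eMm' : 0 ≤ (M : ℝ) / m := by positivity
  -- powers of L
  have hL4 : (1 : ℝ) ≤ L ^ 4 := one_le_pow₀ hL1
  have hL5 : (1 : ℝ) ≤ L ^ 5 := one_le_pow₀ hL1
  have hL56 : 5000 * L ^ 5 ≤ L ^ 6 := by
    have : L ^ 6 = L * L ^ 5 := by ring
    rw [this]
    exact mul_le_mul_of_nonneg_right hL (by positivity)
  -- the first bound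
  obtain ⟨a1, ha1⟩ : ∃ a1 : ℝ, a1 = 40 * ((2 * (12 * Real.log (6 * (M : ℝ)) + 2)) ^ Jr *
        (96 * ((M : ℝ) / m) * Real.log (((M : ℝ) + 1) * ((4 * M ^ 20 : ℕ) : ℝ)) + 6)) := ⟨_, rfl⟩
  obtain ⟨a2, ha2⟩ : ∃ a2 : ℝ, a2 = 40 * ((M : ℝ) * Real.log ((4 * M ^ 20 : ℕ) : ℝ) + 2) / m :=
    ⟨_, rfl⟩
  have hp1 : (2 * (12 * Real.log (6 * (M : ℝ)) + 2)) ^ Jr ≤ L ^ (2 * Jr) := by
    rw [pow_mul]
    apply pow_le_pow_left₀ (by positivity)
    nlinarith
  have hp2 : 96 * ((M : ℝ) / m) * Real.log (((M : ℝ) + 1) * ((4 * M ^ 20 : ℕ) : ℝ)) + 6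
      ≤ L ^ 6 := by
    have h1 : ((M : ℝ) / m) * Real.log (((M : ℝ) + 1) * ((4 * M ^ 20 : ℕ) : ℝ))
        ≤ (2 * L ^ 4) * (22 * L) :=
      mul_le_mul eMm (by linarith) e21' (by positivity)
    have h2 : (2 * L ^ 4) * (22 * L) = 44 * L ^ 5 := by ring
    nlinarith
  have ha1' : 0 ≤ a1 := by rw [ha1]; positivity
  have ha2' : 0 ≤ a2 := by rw [ha2]; positivity
  have hb1 : a1 ≤ L ^ (2 * Jr + 7) := by
    rw [ha1]
    have h1 : (2 * (12 * Real.log (6 * (M : ℝ)) + 2)) ^ Jr *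
        (96 * ((M : ℝ) / m) * Real.log (((M : ℝ) + 1) * ((4 * M ^ 20 : ℕ) : ℝ)) + 6)
        ≤ L ^ (2 * Jr) * L ^ 6 := mul_le_mul hp1 hp2 (by positivity) (by positivity)
    have h2 : L ^ (2 * Jr + 7) = L * (L ^ (2 * Jr) * L ^ 6) := by ring
    rw [h2]
    refine le_trans (mul_le_mul_of_nonneg_left h1 (by norm_num)) ?_
    exact mul_le_mul_of_nonneg_right (by linarith) (by positivity)
  have hb2 : a2 ≤ L ^ 6 := by
    have h0 : a2 = 40 * (((M : ℝ) / m) * Real.log ((4 * M ^ 20 : ℕ) : ℝ)) + 80 / m := by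
      rw [ha2]
      field_simp
      ring
    have h1 : ((M : ℝ) / m) * Real.log ((4 * M ^ 20 : ℕ) : ℝ) ≤ (2 * L ^ 4) * (21 * L) :=
      mul_le_mul eMm (by linarith) e20' (by positivity)
    have h2 : (2 * L ^ 4) * (21 * L) = 42 * L ^ 5 := by ring
    have h3 : 80 / (m : ℝ) ≤ 80 := div_le_self (by norm_num) hmr
    rw [h0]
    nlinarith
  obtain ⟨s, hs⟩ : ∃ s : ℕ, s = ⌈a1 + a2⌉₊ := ⟨_, rfl⟩
  have hs1 : a1 + a2 ≤ s := by rw [hs]; exact Nat.le_ceil _
  have hs2 : (s : ℝ) ≤ L ^ K := by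
    have h1 : (s : ℝ) < a1 + a2 + 1 := by rw [hs]; exact Nat.ceil_lt_add_one (by positivity)
    have h2 : L ^ K = L * L ^ (2 * Jr + 7) := by rw [hK]; ring
    have h3 : L ^ 6 ≤ L ^ (2 * Jr + 7) := pow_le_pow_right₀ hL1 (by omega)
    have h4 : (1 : ℝ) ≤ L ^ (2 * Jr + 7) := one_le_pow₀ hL1
    rw [h2]
    nlinarith
  obtain ⟨l, hl⟩ : ∃ l : ℕ, l = ⌈(5 / 2 : ℝ) * (2 + Real.log lam / Real.log 2)⌉₊ := ⟨_, rfl⟩
  have hloglam : 0 ≤ Real.log lam := Real.log_nonneg hlamr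
  have hlpos : 0 ≤ (5 / 2 : ℝ) * (2 + Real.log lam / Real.log 2) := by positivity
  have hl1 : (5 / 2 : ℝ) * (2 + Real.log lam / Real.log 2) ≤ l := by
    rw [hl]; exact Nat.le_ceil _
  have hl2 : (l : ℝ) ≤ 40 * Real.log L := by
    have h1 : (l : ℝ) < (5 / 2 : ℝ) * (2 + Real.log lam / Real.log 2) + 1 := by
      rw [hl]; exact Nat.ceil_lt_add_one hlpos
    have h2 : Real.log lam ≤ 2 + 9 * Real.log L := by
      refine le_trans (Real.log_le_log hlampos hlam2) ?_
      rw [Real.log_mul (by norm_num) (by positivity), Real.log_pow]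
      push_cast
      linarith [log5_lt]
    have h3 : Real.log lam / Real.log 2 ≤ 3 + 14 * Real.log L := by
      rw [div_le_iff₀ hlog2p]
      nlinarith
    linarith
  refine ⟨s, l, 432 * (s + l + 3) ^ (3 * l) * lam * (s + l + 2), ?_, ?_, ?_, rfl, ?_⟩
  · rw [← ha1]; linarith
  · have h1 : a2 * m = 40 * ((M : ℝ) * Real.log ((4 * M ^ 20 : ℕ) : ℝ) + 2) := by
      rw [ha2]; field_simp
    rw [← h1]
    exact mul_le_mul_of_nonneg_right (by linarith) hmpos.le
  · -- 3 * lam ^ M < 2 ^ (2/5 M (l+1))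
    have h0 : (0 : ℝ) < 3 * (lam : ℝ) ^ M := by positivity
    have h1 : (0 : ℝ) < (2 : ℝ) ^ ((2 / 5 : ℝ) * M * (l + 1)) := by positivity
    rw [← Real.log_lt_log_iff h0 h1, Real.log_mul (by norm_num) (by positivity), Real.log_pow,
      Real.log_rpow (by norm_num)]
    have h2 : 2 * Real.log 2 + Real.log lam ≤ (2 / 5 : ℝ) * l * Real.log 2 := by
      have h3 : (2 + Real.log lam / Real.log 2) ≤ (2 / 5 : ℝ) * l := by linarith
      have h4 := mul_le_mul_of_nonneg_right h3 hlog2p.le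
      have h5 : (2 + Real.log lam / Real.log 2) * Real.log 2 = 2 * Real.log 2 + Real.log lam := by
        field_simp
      linarith
    have h6 : Real.log 3 < 2 * Real.log 2 + (2 / 5 : ℝ) * Real.log 2 := by
      have : Real.log 3 < 2 * Real.log 2 := by
        have h7 : Real.log (2 ^ 2 : ℝ) = 2 * Real.log 2 := by
          rw [Real.log_pow]; push_cast; ring
        rw [← h7]
        exact Real.log_lt_log (by norm_num) (by norm_num)
      linarith
    have h7 : (M : ℝ) * (2 * Real.log 2 + Real.log lam) ≤ M * ((2 / 5 : ℝ) * l * Real.log 2) :=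
      mul_le_mul_of_nonneg_left h2 hMpos.le
    have h8' : 2 * Real.log 2 + (2 / 5 : ℝ) * Real.log 2 ≤
        M * (2 * Real.log 2 + (2 / 5 : ℝ) * Real.log 2) :=
      le_mul_of_one_le_left (by positivity) hMr
    nlinarith
  · -- the bound of smax
    obtain ⟨smax, hsmax⟩ : ∃ smax : ℕ,
      smax = 432 * (s + l + 3) ^ (3 * l) * lam * (s + l + 2) := ⟨_, rfl⟩
    rw [← hsmax]
    have hlogL : Real.log L ≤ L := (Real.log_le_sub_one_of_pos hLpos).trans (by linarith)
    have hsl : (s : ℝ) + l + 3 ≤ L ^ (K + 1) := by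
      have h2 : L ^ (K + 1) = L * L ^ K := by ring
      have h3 : L ≤ L ^ K := by
        calc L = L ^ 1 := (pow_one L).symm
          _ ≤ L ^ K := pow_le_pow_right₀ hL1 (by omega)
      rw [h2]
      have h4 : 5000 * L ^ K ≤ L * L ^ K := mul_le_mul_of_nonneg_right hL (by positivity)
      linarith
    have hsm1 : (smax : ℝ) ≤ L ^ (11 + (K + 1) * (3 * l + 1)) := by
      rw [hsmax]
      push_cast
      have g1 : ((s : ℝ) + l + 3) ^ (3 * l) ≤ (L ^ (K + 1)) ^ (3 * l) :=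
        pow_le_pow_left₀ (by positivity) hsl _
      have g2 : (lam : ℝ) ≤ L ^ 10 := by
        have : L ^ 10 = L * L ^ 9 := by ring
        rw [this]
        refine hlam2.trans (mul_le_mul_of_nonneg_right (by linarith) (by positivity))
      have g3 : (s : ℝ) + l + 2 ≤ L ^ (K + 1) := by linarith
      have g4 : (432 : ℝ) ≤ L := by linarith
      have g5 : L ^ (11 + (K + 1) * (3 * l + 1)) =
          L * (L ^ (K + 1)) ^ (3 * l) * L ^ 10 * L ^ (K + 1) := by
        rw [← pow_mul]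
        ring
      rw [g5]
      have q1 : 432 * ((s : ℝ) + l + 3) ^ (3 * l) ≤ L * (L ^ (K + 1)) ^ (3 * l) :=
        mul_le_mul g4 g1 (by positivity) hLpos.le
      have q2 : 432 * ((s : ℝ) + l + 3) ^ (3 * l) * lam ≤ L * (L ^ (K + 1)) ^ (3 * l) * L ^ 10 :=
        mul_le_mul q1 g2 hlampos.le (by positivity)
      exact mul_le_mul q2 g3 (by positivity) (by positivity)
    have hexp : L ^ (11 + (K + 1) * (3 * l + 1)) ≤ (M : ℝ) ^ (min ε 1) := by
      have r1 : L ^ (11 + (K + 1) * (3 * l + 1)) =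
          Real.exp (Real.log L * ((11 + (K + 1) * (3 * l + 1) : ℕ) : ℝ)) := by
        rw [← Real.rpow_def_of_pos hLpos, Real.rpow_natCast]
      rw [r1, Real.rpow_def_of_pos hMpos]
      apply Real.exp_le_exp.2
      push_cast
      have hLLp : 0 ≤ Real.log L := by linarith
      have r2 : (11 : ℝ) + (K + 1) * (3 * l + 1) ≤ C * Real.log L := by
        rw [hC]
        have hKp : (0 : ℝ) ≤ (K : ℝ) + 1 := by positivity
        have r3 : (3 * (l : ℝ) + 1) ≤ 121 * Real.log L := by linarith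
        have r4 : ((K : ℝ) + 1) * (3 * l + 1) ≤ (K + 1) * (121 * Real.log L) :=
          mul_le_mul_of_nonneg_left r3 hKp
        nlinarith
      have r5 : Real.log L * ((11 : ℝ) + (K + 1) * (3 * l + 1)) ≤ Real.log L * (C * Real.log L) :=
        mul_le_mul_of_nonneg_left r2 hLLp
      have r6 : Real.log L * (C * Real.log L) = C * (Real.log L) ^ 2 := by ring
      rw [r6] at r5
      have r7 : Real.log (M : ℝ) * min ε 1 = min ε 1 * L := by rw [mul_comm]
      rw [r7]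
      exact r5.trans hCL
    have hsmM : (smax : ℝ) ≤ (M : ℝ) ^ (min ε 1) := hsm1.trans hexp
    have hsm0 : (0 : ℝ) ≤ smax := by positivity
    constructor
    · have u1 : (M : ℝ) ^ (min ε 1) ≤ M := by
        calc (M : ℝ) ^ (min ε 1) ≤ (M : ℝ) ^ (1 : ℝ) :=
              Real.rpow_le_rpow_of_exponent_le hMr (min_le_right _ _)
          _ = M := Real.rpow_one _
      have u2 : (smax : ℝ) ^ 2 ≤ (M : ℝ) ^ 2 := pow_le_pow_left₀ hsm0 (hsmM.trans u1) 2
      linarith
    · have v1 : (smax : ℝ) ≤ (M : ℝ) ^ ε :=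
        hsmM.trans (Real.rpow_le_rpow_of_exponent_le hMr (min_le_left _ _))
      have v2 : Real.log (2 * (XM M : ℝ) + 1) ≤ (M : ℝ) ^ (1 + ε) := by
        have w1 : (XM M : ℝ) = (M : ℝ) ^ (3000 * M) := by
          unfold XM
          push_cast
          rfl
        have w2 : (1 : ℝ) ≤ (M : ℝ) ^ (3000 * M) := one_le_pow₀ hMr
        rw [w1]
        have w3 : Real.log (2 * (M : ℝ) ^ (3000 * M) + 1) ≤
            Real.log (3 * (M : ℝ) ^ (3000 * M)) :=
          Real.log_le_log (by positivity) (by linarith)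
        rw [Real.log_mul (by norm_num) (by positivity), Real.log_pow] at w3
        push_cast at w3
        have w4 : (M : ℝ) ^ (1 + ε) = M * (M : ℝ) ^ ε := by
          rw [Real.rpow_add hMpos, Real.rpow_one]
        rw [w4]
        have w5 : (M : ℝ) * (3001 * L) ≤ M * (M : ℝ) ^ ε :=
          mul_le_mul_of_nonneg_left h3001 hMpos.le
        have w6 : Real.log 3 ≤ M * L := by
          have := log3_lt
          nlinarith
        nlinarith
      have v3 : (0 : ℝ) ≤ Real.log (2 * (XM M : ℝ) + 1) := by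
        apply Real.log_nonneg
        have : (0 : ℝ) ≤ (XM M : ℝ) := by positivity
        linarith
      calc (smax : ℝ) * Real.log (2 * (XM M : ℝ) + 1) ≤ (M : ℝ) ^ ε * (M : ℝ) ^ (1 + ε) :=
            mul_le_mul v1 v2 v3 (by positivity)
        _ = (M : ℝ) ^ (ε + (1 + ε)) := (Real.rpow_add hMpos _ _).symm
        _ ≤ (M : ℝ) ^ (1 + 5 * ε) :=
            Real.rpow_le_rpow_of_exponent_le hMr (by linarith)

end Pool.Agent.Work.MP_e0aece_nt.Eps
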