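import Pool.Agent.Work.MP_e0aece_nt.Bd.B06

/-!
# ItemGF: the final theorem from the chromatic numbers
-/

namespace Pool.Agent.Work.MP_e0aece_nt.Eps

open Finset Sq

namespace ItemGF

open Filter

theorem exp_ineq {e : ℝ} (he0 : 0 < e) : 1 - 7 * e ≤ 1 / (1 + 5 * e) * (1 - 2 * e) := by
  rw [one_div, ← div_eq_inv_mul, le_div_iff₀ (by positivity)]
  nlinarith [sq_nonneg e]

theorem two_le_rpow {M e : ℝ} (hM : 4 ≤ M) (he : e ≤ 1 / 10) : 2 ≤ M ^ (1 - 2 * e) := by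
  have h2 : (2 : ℝ) = (4 : ℝ) ^ ((1 : ℝ) / 2) := by
    rw [show (4 : ℝ) = 2 ^ (2 : ℝ) by norm_num, ← Real.rpow_mul (by norm_num)]
    norm_num
  calc (2 : ℝ) = (4 : ℝ) ^ ((1 : ℝ) / 2) := h2
    _ ≤ M ^ ((1 : ℝ) / 2) := Real.rpow_le_rpow (by norm_num) hM (by norm_num)
    _ ≤ M ^ (1 - 2 * e) := Real.rpow_le_rpow_of_exponent_le (by linarith) (by linarith)

end ItemGF

open ItemGF Filter in
theorem claimFinalEps (hG4 : ClaimG4) : ClaimFinalEps := by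
  intro ε hε
  obtain ⟨e, he⟩ : ∃ e : ℝ, e = min (ε / 20) (1 / 10) := ⟨_, rfl⟩
  have he0 : 0 < e := by rw [he]; exact lt_min (by linarith) (by norm_num)
  have he1 : e ≤ 1 / 10 := by rw [he]; exact min_le_right _ _
  have he20 : 20 * e ≤ ε := by
    have : e ≤ ε / 20 := by rw [he]; exact min_le_left _ _
    linarith
  obtain ⟨M0, hG⟩ := hG4 e he0 he1
  obtain ⟨a, ha⟩ : ∃ a : ℝ, a = 1 / (1 + 5 * e) := ⟨_, rfl⟩
  have ha0 : 0 < a := by rw [ha]; positivity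
  have ha1 : a ≤ 1 := by
    rw [ha, div_le_one (by positivity)]
    linarith
  have haa : a * (1 + 5 * e) = 1 := by
    rw [ha]; field_simp
  have e1 : ∀ᶠ L : ℝ in atTop, Real.log L ≤ 1 / 24 * L ^ (13 * e) := by
    have h := (isLittleO_log_rpow_atTop (show (0 : ℝ) < 13 * e by positivity)).def
      (show (0 : ℝ) < 1 / 24 by norm_num)
    filter_upwards [h, eventually_ge_atTop 1] with L hL hL1
    rw [Real.norm_of_nonneg (Real.log_nonneg hL1),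
      Real.norm_of_nonneg (Real.rpow_nonneg (by linarith) _)] at hL
    exact hL
  have e2 : ∀ᶠ L : ℝ in atTop, ((M0 + 5 : ℕ) : ℝ) ≤ L ^ a :=
    (tendsto_rpow_atTop ha0).eventually_ge_atTop _
  have e3 := Real.tendsto_log_atTop.eventually (e1.and (e2.and (eventually_gt_atTop 1)))
  filter_upwards [e3, eventually_gt_atTop 1] with x hx hx1
  obtain ⟨h1, h2, h3⟩ := hx
  set L : ℝ := Real.log x with hL
  have hL0 : 0 < L := by linarith
  have hLa0 : 0 ≤ L ^ a := Real.rpow_nonneg hL0.le _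
  obtain ⟨M, hM⟩ : ∃ M : ℕ, M = ⌊L ^ a⌋₊ := ⟨_, rfl⟩
  have hML : (M : ℝ) ≤ L ^ a := by rw [hM]; exact Nat.floor_le hLa0
  have hML' : L ^ a < M + 1 := by rw [hM]; exact Nat.lt_floor_add_one _
  have hMM : M0 + 5 ≤ M := by rw [hM]; exact Nat.le_floor h2
  have hM4 : (4 : ℝ) ≤ M := by
    have : 4 ≤ M := by omega
    exact_mod_cast this
  have hM0 : (0 : ℝ) < M := by linarith
  have hpow : (M : ℝ) ^ (1 + 5 * e) ≤ L := by
    calc (M : ℝ) ^ (1 + 5 * e) ≤ (L ^ a) ^ (1 + 5 * e) :=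
          Real.rpow_le_rpow hM0.le hML (by linarith)
      _ = L := by rw [← Real.rpow_mul hL0.le, haa, Real.rpow_one]
  have hexp : Real.exp ((M : ℝ) ^ (1 + 5 * e)) ≤ x := by
    calc Real.exp ((M : ℝ) ^ (1 + 5 * e)) ≤ Real.exp L := Real.exp_le_exp.2 hpow
      _ = x := by rw [hL, Real.exp_log (by linarith)]
  obtain ⟨v, hv1, hv2, hv⟩ := hG M (by omega)
  obtain ⟨y, hy⟩ : ∃ y : ℕ, y = ⌊(M : ℝ) ^ (1 - 2 * e)⌋₊ := ⟨_, rfl⟩
  have hchi := hv x hexp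
  rw [← hy] at hchi
  have hR := Sq.ItemDF.R_lower hv1 hv2 (by omega) hchi
  have hMp2 : 2 ≤ (M : ℝ) ^ (1 - 2 * e) := two_le_rpow hM4 he1
  have hy1 : (M : ℝ) ^ (1 - 2 * e) / 2 ≤ y := by
    have : (M : ℝ) ^ (1 - 2 * e) < y + 1 := by rw [hy]; exact Nat.lt_floor_add_one _
    linarith
  -- lower bound for `M`
  have hM2 : L ^ a / 2 ≤ M := by linarith
  have hMp : L ^ (1 - 7 * e) / 2 ≤ (M : ℝ) ^ (1 - 2 * e) := by
    have h5 : (L ^ a / 2) ^ (1 - 2 * e) ≤ (M : ℝ) ^ (1 - 2 * e) :=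
      Real.rpow_le_rpow (by positivity) hM2 (by linarith)
    have h6 : (L ^ a / 2) ^ (1 - 2 * e) = L ^ (a * (1 - 2 * e)) / 2 ^ (1 - 2 * e) := by
      rw [Real.div_rpow hLa0 (by norm_num), ← Real.rpow_mul hL0.le]
    have h7 : L ^ (1 - 7 * e) ≤ L ^ (a * (1 - 2 * e)) := by
      refine Real.rpow_le_rpow_of_exponent_le h3.le ?_
      rw [ha]
      exact exp_ineq he0
    have h8 : (2 : ℝ) ^ (1 - 2 * e) ≤ 2 := by
      calc (2 : ℝ) ^ (1 - 2 * e) ≤ 2 ^ (1 : ℝ) :=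
            Real.rpow_le_rpow_of_exponent_le (by norm_num) (by linarith)
        _ = 2 := Real.rpow_one 2
    have h9 : 0 < (2 : ℝ) ^ (1 - 2 * e) := by positivity
    calc L ^ (1 - 7 * e) / 2 ≤ L ^ (a * (1 - 2 * e)) / 2 := by linarith
      _ ≤ L ^ (a * (1 - 2 * e)) / 2 ^ (1 - 2 * e) :=
          div_le_div_of_nonneg_left (Real.rpow_nonneg hL0.le _) h9 h8
      _ = (L ^ a / 2) ^ (1 - 2 * e) := h6.symm
      _ ≤ (M : ℝ) ^ (1 - 2 * e) := h5
  have hR0 : (0 : ℝ) ≤ R x := Nat.cast_nonneg _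
  have hlog2 : (1 / 2 : ℝ) ≤ Real.log 2 := by
    have := Real.log_two_gt_d9
    linarith
  have hlogM : Real.log (M : ℝ) ≤ Real.log L := by
    refine Real.log_le_log hM0 (hML.trans ?_)
    calc L ^ a ≤ L ^ (1 : ℝ) := Real.rpow_le_rpow_of_exponent_le h3.le ha1
      _ = L := Real.rpow_one L
  have hlogL : 0 < Real.log L := Real.log_pos h3
  have hy0 : (0 : ℝ) ≤ y := Nat.cast_nonneg _
  have hkey : L ^ (1 - 7 * e) / 8 ≤ (R x : ℝ) * (3 * Real.log L) := by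
    calc L ^ (1 - 7 * e) / 8 ≤ (y : ℝ) * (1 / 2) := by linarith
      _ ≤ (y : ℝ) * Real.log 2 := mul_le_mul_of_nonneg_left hlog2 hy0
      _ ≤ (R x : ℝ) * (3 * Real.log M) := hR
      _ ≤ (R x : ℝ) * (3 * Real.log L) := by
          refine mul_le_mul_of_nonneg_left ?_ hR0
          linarith
  have hsplit : L ^ (1 - 7 * e) = L ^ (1 - 20 * e) * L ^ (13 * e) := by
    rw [← Real.rpow_add hL0]
    congr 1
    ring
  have hle : L ^ (1 - ε) ≤ L ^ (1 - 20 * e) :=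
    Real.rpow_le_rpow_of_exponent_le h3.le (by linarith)
  have hfin : L ^ (1 - 20 * e) * (24 * Real.log L) ≤ (R x : ℝ) * (24 * Real.log L) := by
    calc L ^ (1 - 20 * e) * (24 * Real.log L) ≤ L ^ (1 - 20 * e) * L ^ (13 * e) := by
          refine mul_le_mul_of_nonneg_left ?_ (Real.rpow_nonneg hL0.le _)
          linarith
      _ = L ^ (1 - 7 * e) := hsplit.symm
      _ ≤ (R x : ℝ) * (24 * Real.log L) := by linarith
  exact hle.trans (le_of_mul_le_mul_right hfin (by positivity))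

end Pool.Agent.Work.MP_e0aece_nt.Eps
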