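import Pool.Agent.Work.MP_e0aece_nt.Sq.Main
import Pool.Agent.Work.MP_e0aece_nt.Bd.B06
import Pool.Agent.Work.MP_e0aece_nt.Bd.B07
import Pool.Agent.Work.MP_e0aece_nt.Eps.ItemE8
import Pool.Agent.Work.MP_e0aece_nt.Eps.ItemE12
import Pool.Agent.Work.MP_e0aece_nt.Eps.ItemF3a
import Pool.Agent.Work.MP_e0aece_nt.Eps.ItemF3b
import Pool.Agent.Work.MP_e0aece_nt.Eps.ItemF3
import Pool.Agent.Work.MP_e0aece_nt.Eps.ItemF5b
import Pool.Agent.Work.MP_e0aece_nt.Eps.ItemF5
import Pool.Agent.Work.MP_e0aece_nt.Eps.ItemG5a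
import Pool.Agent.Work.MP_e0aece_nt.Eps.ItemG5b
import Pool.Agent.Work.MP_e0aece_nt.Eps.ItemG5
import Pool.Agent.Work.MP_e0aece_nt.Eps.ItemG4
import Pool.Agent.Work.MP_e0aece_nt.Eps.ItemGF

/-!
# Assembly: `R x ≥ (log x) ^ (1 - ε)`
-/

namespace Pool.Agent.Work.MP_e0aece_nt.Eps

open Sq

/-- E2. -/
theorem modE2 : ClaimE2 := claimE2 claimE2a

/-- E12. -/
theorem modE12 : ClaimE12 :=
  claimE12 (claimE12b claimE8 claimE9 (claimE12a (claimE11 claimE11a claimE11b)))

/-- E14: the spectrum of a maximal state. -/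
theorem modE14 : ClaimE14 :=
  claimE14 (claimE4 claimE1 modE2) (claimE5 claimE1 modE2) (claimE7 claimE6) modE12
    claimE13

/-- F5: short zero sums. -/
theorem modF5 : ClaimF5 :=
  claimF5 claimF2 (claimF3 claimF3a claimF3b) claimF5a (claimF5b claimF4)

/-- The abstract theorem. -/
theorem modEps : ClaimEps :=
  claimEps claimE1 (claimE3 claimE1) modE14 (claimEn claimE1) claimF1 modF5

/-- The final theorem. -/
theorem claimFinalEps_all : ClaimFinalEps :=
  claimFinalEps (claimG4 modEps (claimG5 claimG5a claimG5b) (claimBcount modB) modC claimD1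
    claimD2 claimD3)

end Pool.Agent.Work.MP_e0aece_nt.Eps
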